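import Pool.Agent.PSS.StmtsG

/-!
# Squad PSS, rows TWN and CYQ (helper49)
-/

set_option autoImplicit false

open scoped BigOperators

namespace Pool.Agent.PSS.H49

open Pool.Agent.Helper51_AWC Pool.Agent.Helper79_WRA Pool.Agent.PP Pool.Agent.PP.KF
open Pool.Agent.PP.K9 Pool.Agent.PP.K9.H97 Pool.Agent.PP.H75 Pool.Agent.PP.T3 Pool.Agent.PP.T2
open Pool.Agent.PFD (Ei)
open Pool.Agent.PSS

/-- TWN: the inertial group normalises an `E`-stable subgroup. -/
theorem twn : TwnStmt := by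
  intro F G _ V γ W hWV hE
  have key : ∀ t ∈ Tg V γ, ∀ w ∈ W, t * w * t⁻¹ ∈ W := by
    intro t ht w hw
    have htn : t ∈ Subgroup.normalizer (V : Set G) := ht.1
    have h1 : V.normalizerMonoidHom ⟨t, htn⟩ ∈ Ei V γ :=
      Subgroup.mem_map_of_mem _ (Subgroup.mem_subgroupOf.2 ht)
    have h2 := hE _ h1 ⟨w, hWV hw⟩ (Subgroup.mem_subgroupOf.2 hw)
    exact h2
  intro t ht
  rw [Subgroup.mem_normalizer_iff]
  intro w
  constructor
  · exact key t ht w
  · intro h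
    have h1 := key t⁻¹ (inv_mem ht) _ h
    have h2 : t⁻¹ * (t * w * t⁻¹) * t⁻¹⁻¹ = w := by group
    rwa [h2] at h1

/-- products of cyclic subgroups in quotients -/
theorem cyq1 {V V' : Type} [Group V] [Group V'] {E : Subgroup (MulAut V)}
    {E' : Subgroup (MulAut V')} {π : V →* V'} (hq : Qr E E' π) (C : Subgroup V) (hC : Cyc E C) : C ⊓ π.ker = ⊥ → Cyc E' (C.map π) := by
  induction hC with
  | bot =>
    intro _
    rw [Subgroup.map_bot]
    exact Cyc.bot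
  | mul C Y _ hy hs hd ih =>
    intro h
    have hC0 : C ⊓ π.ker = ⊥ := by
      rw [eq_bot_iff, ← h]
      exact inf_le_inf_right _ le_sup_left
    rw [Subgroup.map_sup]
    refine Cyc.mul _ _ (ih hC0) ?_ ?_ ?_
    · obtain ⟨y, hy1, hy2⟩ := hy
      refine ⟨π y, Subgroup.mem_map_of_mem _ hy1, ?_⟩
      rintro _ ⟨x, hx, rfl⟩
      obtain ⟨k, hk⟩ := hy2 x hx
      exact ⟨k, by rw [hk, map_zpow]⟩
    · rintro a' ha' _ ⟨y, hy1, rfl⟩
      obtain ⟨a, ha, haa⟩ := hq.lif a' ha'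
      rw [← haa]
      exact Subgroup.mem_map_of_mem _ (hs a ha y hy1)
    · rw [eq_bot_iff]
      rintro _ ⟨⟨c, hc, rfl⟩, ⟨y, hy1, hyc⟩⟩
      have h1 : c * y⁻¹ ∈ (C ⊔ Y) ⊓ π.ker := by
        refine Subgroup.mem_inf.2 ⟨(C ⊔ Y).mul_mem (Subgroup.mem_sup_left hc)
          ((C ⊔ Y).inv_mem (Subgroup.mem_sup_right hy1)), ?_⟩
        rw [MonoidHom.mem_ker, map_mul, map_inv, hyc, mul_inv_cancel]
      rw [h, Subgroup.mem_bot, mul_inv_eq_one] at h1
      have h2 : c ∈ C ⊓ Y := ⟨hc, by rw [h1]; exact hy1⟩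
      rw [hd, Subgroup.mem_bot] at h2
      rw [Subgroup.mem_bot, h2, map_one]

/-- an automorphism of order prime to `ℓ` of a cyclic `ℓ`-group with a nontrivial fixed point -/
theorem fix_cyc {ℓ : ℕ} {V : Type} [Group V] [Finite V] {E : Subgroup (MulAut V)}
    (hl : ℓ.Prime) (hp : IsPGroup ℓ V) (hE : ¬ ℓ ∣ Nat.card E) {y0 u : V} {a : MulAut V}
    (ha : a ∈ E) {k j : ℤ} (hk : a y0 = y0 ^ k) (hu : u = y0 ^ j) (hu1 : u ≠ 1)
    (hau : a u = u) : a y0 = y0 := by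
  have : Fact ℓ.Prime := ⟨hl⟩
  obtain ⟨n, hn⟩ := IsPGroup.iff_orderOf.1 hp y0
  have hlZ : Prime (ℓ : ℤ) := Nat.prime_iff_prime_int.1 hl
  have h1 : ((ℓ : ℤ) ^ n) ∣ j * (k - 1) := by
    have h2 : y0 ^ (j * (k - 1)) = 1 := by
      rw [hu, map_zpow, hk, ← zpow_mul] at hau
      rw [mul_sub, mul_one, zpow_sub, mul_comm j k, hau, mul_inv_cancel]
    have h3 := orderOf_dvd_iff_zpow_eq_one.2 h2
    rw [hn] at h3
    exact_mod_cast h3
  have hlk : (ℓ : ℤ) ∣ k - 1 := by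
    by_contra h
    have h2 : IsCoprime ((ℓ : ℤ) ^ n) (k - 1) :=
      IsCoprime.pow_left ((Prime.coprime_iff_not_dvd hlZ).2 h)
    have h3 := h2.dvd_of_dvd_mul_right h1
    apply hu1
    rw [hu]
    apply orderOf_dvd_iff_zpow_eq_one.1
    rw [hn]
    exact_mod_cast h3
  have hpow : ∀ i : ℕ, (a ^ i) y0 = y0 ^ (k ^ i) := by
    intro i
    induction i with
    | zero => rw [pow_zero, pow_zero, zpow_one, MulAut.one_apply]
    | succ i ih =>
      rw [pow_succ, MulAut.mul_apply, hk, map_zpow, ih, ← zpow_mul, pow_succ]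
  set N := orderOf a with hN
  have hNE : N ∣ Nat.card E := Subgroup.orderOf_dvd_natCard E ha
  set S := ∑ i ∈ Finset.range N, k ^ i with hS
  have hS1 : ¬ (ℓ : ℤ) ∣ S := by
    intro h
    apply hE
    refine dvd_trans ?_ hNE
    have h2 : (ℓ : ℤ) ∣ S - N := by
      have h3 : S - N = ∑ i ∈ Finset.range N, (k ^ i - 1) := by
        rw [Finset.sum_sub_distrib, Finset.sum_const, Finset.card_range, nsmul_eq_mul, mul_one]
      rw [h3]
      apply Finset.dvd_sum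
      intro i _
      exact hlk.trans (sub_one_dvd_pow_sub_one k i)
    have h4 : (ℓ : ℤ) ∣ N := by
      have := dvd_sub h h2
      rwa [sub_sub_cancel] at this
    exact_mod_cast h4
  have h5 : ((ℓ : ℤ) ^ n) ∣ S * (k - 1) := by
    rw [hS, geom_sum_mul]
    have h2 : y0 ^ (k ^ N - 1) = 1 := by
      rw [zpow_sub, ← hpow, hN, pow_orderOf_eq_one, MulAut.one_apply, zpow_one, mul_inv_cancel]
    have h3 := orderOf_dvd_iff_zpow_eq_one.2 h2
    rw [hn] at h3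
    exact_mod_cast h3
  have h6 : IsCoprime ((ℓ : ℤ) ^ n) S :=
    IsCoprime.pow_left ((Prime.coprime_iff_not_dvd hlZ).2 hS1)
  have h7 := h6.dvd_of_dvd_mul_left h5
  have h8 : y0 ^ (k - 1) = 1 := by
    apply orderOf_dvd_iff_zpow_eq_one.1
    rw [hn]
    exact_mod_cast h7
  rw [hk]
  have h9 : y0 ^ k = y0 ^ (k - 1) * y0 := by
    rw [← zpow_add_one, sub_add_cancel]
  rw [h9, h8, one_mul]

/-- CYQ. -/
theorem cyq : CyqStmt := by
  refine ⟨fun V V' _ _ E E' π _ hq C hC h => cyq1 hq C hC h, ?_⟩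
  intro ℓ V _ _ E hl hp hE hab C hC
  induction hC with
  | bot =>
    intro h
    exact absurd rfl h
  | mul C Y hC hy hs hd ih =>
    intro h
    by_cases hY : Y = ⊥
    · rw [hY, sup_bot_eq] at h ⊢
      exact ih h
    · refine ⟨C, Y, hC, hd, rfl, hY, hs, ?_⟩
      intro a ha u hu hu1 hau y hy1
      obtain ⟨y0, hy0, hy2⟩ := hy
      obtain ⟨k, hk⟩ := hy2 _ (hs a ha y0 hy0)
      obtain ⟨j, hj⟩ := hy2 u hu
      obtain ⟨i, hi⟩ := hy2 y hy1
      have h1 := fix_cyc hl hp hE ha hk hj hu1 hau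
      rw [hi, map_zpow, h1]

end Pool.Agent.PSS.H49
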