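import Pool.Agent.PSS.StmtsBR

/-!
# Squad PSS: BSR, theorem (R) as a base case (helper49, assembly)
-/

open scoped BigOperators

noncomputable section

namespace Pool.Agent.PSS.BR.H49

open Pool.Agent.PFE (SG)

theorem bsr (rct : RctStmt) (sgx : SgxStmt) (snw : SnwStmt) (lrn : LrnStmt) (rdl : S5.RdlStmt)
    (lnw : S5.LnwStmt) : BsrStmt := by
  intro ℓ _ F V E A B _ _ _ _ _ _ _ _ _ _ _ φ α W hP hE hR hA hN
  have hst : ∀ e : E, ∀ w ∈ W, φ e w ∈ W := by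
    obtain ⟨-, U, -, -, h, -⟩ := hR
    exact h
  refine rdl ℓ F V E A B φ α W hP hE hst hA hN ?_
  intro E' Y Y' _ _ _ _ αY hE' hLc NY
  classical
  obtain ⟨hcard, U, hinf, hsup, hU, hC, C, _, _, _, θ, hθ1, hθ2, hθ3⟩ :=
    rct ℓ V E φ W E' hP hE hR hE'
  obtain ⟨S, _, _, q, hq⟩ := sgx F V W C Y αY W.subtype θ
  obtain ⟨S0, _, _, q0, hq0⟩ := sgx F V W Unit Y αY W.subtype (1 : Unit →* MulAut W)
  have hst' : ∀ e : E', ∀ w ∈ W, E'.subtype e w ∈ W := by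
    intro e w hw
    obtain ⟨x, hx⟩ := hE' e.2
    have h1 : E'.subtype e w = φ x w := by
      rw [hx]
      rfl
    rw [h1]
    exact hst x w hw
  have hLc' := lnw ℓ F V E' Y Y' E'.subtype αY W NY hP hst' hLc
  obtain ⟨lam, K, _, x, y, hrf, -⟩ := hLc'.frm
  have key : ∀ (W' : Subgroup V), W' = W → ∃ N' : IsNW F αY W' Y', N'.nwh = NY.nwh := by
    intro W' h
    subst h
    exact ⟨NY, rfl⟩
  obtain ⟨N', hN'⟩ := key W.subtype.range (Subgroup.range_subtype W)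
  rw [← hN'] at hrf
  obtain ⟨q', hq'⟩ := snw ℓ F V W C Y S Y' K αY W.subtype θ q N' lam x y hcard
    (Subgroup.subtype_injective W) hrf hq
  obtain ⟨q0', hq0'⟩ := snw ℓ F V W Unit Y S0 Y' K αY W.subtype 1 q0 N' lam x y hcard
    (Subgroup.subtype_injective W) hrf hq0
  rw [hN'] at hq' hq0'
  rw [lrn ℓ F V C Y S S0 E' αY W U θ q q0 hcard hinf hsup hU hC hθ1 hθ2 hθ3 hLc hq hq0,
    lrn ℓ F V C Y' S S0 E' NY.nwh W U θ q' q0' hcard hinf hsup hU hC hθ1 hθ2 hθ3 hLc' hq' hq0']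

end Pool.Agent.PSS.BR.H49
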