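import Pool.Agent.PSS.StmtsBR

/-!
# Squad PSS: SNW, `S(N_W(A)) = S(A)` (helper49)
-/

open scoped BigOperators

noncomputable section

namespace Pool.Agent.PSS.BR.H49

open Pool.Agent.PFC (IsTv bi rst Fx)
open Pool.Agent.PFE (SG Nt It Tr tj)

section gen

variable {R H M : Type} [CommRing R] [Group H] [AddCommGroup M] [Module R M]

theorem mem_bkr_top [Fintype H] (hc : (Nat.card H).Prime) (ρ : H →* (M →ₗ[R] M)) (x : M) :
    x ∈ BKR ρ ⊤ ↔ ∃ m, x = ∑ h, ρ h m := by
  classical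
  constructor
  · intro hx
    unfold BKR at hx
    induction hx using Submodule.span_induction with
    | mem x h =>
      obtain ⟨P', S, m, hlt, htv, hm, rfl⟩ := h
      have hP : P' = ⊥ := by
        have : Fact (Nat.card H).Prime := ⟨hc⟩
        rcases P'.eq_bot_or_eq_top_of_prime_card with h | h
        · exact h
        · exact absurd h hlt.ne
      subst hP
      have hS : S = Finset.univ := by
        ext p
        simp only [Finset.mem_univ, iff_true]
        obtain ⟨s, ⟨hs, hs'⟩, -⟩ := htv.2 p (Subgroup.mem_top p)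
        have : s = p := by
          rw [Subgroup.mem_bot] at hs'
          exact inv_mul_eq_one.1 hs'
        rwa [this] at hs
      exact ⟨m, by rw [hS]⟩
    | zero => exact ⟨0, by simp⟩
    | add x y _ _ hx hy =>
      obtain ⟨m, rfl⟩ := hx
      obtain ⟨m', rfl⟩ := hy
      exact ⟨m + m', by simp [Finset.sum_add_distrib]⟩
    | smul c x _ hx =>
      obtain ⟨m, rfl⟩ := hx
      exact ⟨c • m, by simp [Finset.smul_sum]⟩
  · rintro ⟨m, rfl⟩
    refine Submodule.subset_span ⟨⊥, Finset.univ, m, ?_, ⟨fun s _ => Subgroup.mem_top s, ?_⟩, ?_, rfl⟩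
    · have : Nontrivial H := by
        rw [← Finite.one_lt_card_iff_nontrivial]
        exact hc.one_lt
      exact bot_lt_top
    · intro p _
      refine ⟨p, ⟨Finset.mem_univ p, ?_⟩, ?_⟩
      · simp
      · rintro s ⟨-, hs⟩
        rw [Subgroup.mem_bot] at hs
        exact inv_mul_eq_one.1 hs
    · intro h hh
      rw [Subgroup.mem_bot] at hh
      rw [hh, map_one]
      rfl

end gen

section a

variable {F V V1 A B : Type} [Field F] [CommGroup V] [CommGroup V1] [Ring A] [Algebra F A]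
  {α : V →* A} {i : V1 →* V} {σ : MulAut V1}

theorem tj_ap (v : V1) (a : A) : tj F α i σ v a = α (i v) * (a * α (i (σ v))⁻¹) := rfl

theorem mem_nt {a : A} : a ∈ Nt F α i σ ↔ ∀ v, α (i v) * a = a * α (i (σ v)) := by
  have hi : ∀ v : V, α v⁻¹ * α v = 1 := fun v => by rw [← map_mul, inv_mul_cancel, map_one]
  have hi' : ∀ v : V, α v * α v⁻¹ = 1 := fun v => by rw [← map_mul, mul_inv_cancel, map_one]
  constructor
  · intro h v
    have h1 : α (i v) * (a * α (i (σ v))⁻¹) = a := h v (Subgroup.mem_top v)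
    calc α (i v) * a = α (i v) * (a * α (i (σ v))⁻¹) * α (i (σ v)) := by
          rw [mul_assoc, mul_assoc, hi, mul_one]
      _ = a * α (i (σ v)) := by rw [h1]
  · intro h v _
    change α (i v) * (a * α (i (σ v))⁻¹) = a
    rw [← mul_assoc, h v, mul_assoc, hi', mul_one]

/-- the automorphism of `i.range` which corresponds to `σ⁻¹` -/
def ee (hi : Function.Injective i) : MulAut V1 →* MulAut i.range where
  toFun := fun σ => MulAut.congr (MonoidHom.ofInjective hi) σ
  map_one' := map_one _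
  map_mul' := map_mul _

theorem ee_ap (hi : Function.Injective i) (σ : MulAut V1) (u : V1) :
    ee hi σ (MonoidHom.ofInjective hi u) = MonoidHom.ofInjective hi (σ u) := by
  change MonoidHom.ofInjective hi (σ ((MonoidHom.ofInjective hi).symm (MonoidHom.ofInjective hi u))) = _
  rw [MulEquiv.symm_apply_apply]

theorem ee_coe (hi : Function.Injective i) (σ : MulAut V1) (u : V1) :
    ((ee hi σ (MonoidHom.ofInjective hi u) : i.range) : V) = i (σ u) := by
  rw [ee_ap]
  rfl

theorem mem_tw_ee (hi : Function.Injective i) {a : A} :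
    a ∈ FxR (bw F α) (twW i.range (ee hi σ⁻¹)) ↔ a ∈ Nt F α i σ := by
  rw [mem_tw, mem_nt]
  constructor
  · intro h v
    have h1 := h (MonoidHom.ofInjective hi (σ v))
    rw [ee_coe, MulAut.inv_apply_self] at h1
    exact h1
  · intro h w
    obtain ⟨u, rfl⟩ := (MonoidHom.ofInjective hi).surjective w
    rw [ee_coe]
    have h1 := h (σ⁻¹ u)
    rw [MulAut.apply_inv_self] at h1
    exact h1

theorem mem_bk_ee [Fintype V1] (hi : Function.Injective i) (hc : (Nat.card V1).Prime) (x : A) :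
    x ∈ BKR (bw F α) (twW i.range (ee hi σ⁻¹)) ↔ ∃ m, x = Tr F α i σ m := by
  classical
  have : Fintype i.range := Fintype.ofEquiv V1 (MonoidHom.ofInjective hi).toEquiv
  rw [BKR_tw, mem_bkr_top]
  · have key : ∀ m : A, ∑ h, rw' F α i.range (ee hi σ⁻¹) h m = Tr F α i σ m := by
      intro m
      rw [Tr, LinearMap.sum_apply]
      refine (Function.Bijective.sum_comp
        (e := fun v : V1 => MonoidHom.ofInjective hi (σ v)) ?_ _).symm.trans ?_
      · exact (MonoidHom.ofInjective hi).bijective.comp σ.bijective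
      · refine Finset.sum_congr rfl fun v _ => ?_
        rw [rw'_apply, tj_ap, ee_coe, MulAut.inv_apply_self]
        rfl
    constructor
    · rintro ⟨m, rfl⟩
      exact ⟨m, key m⟩
    · rintro ⟨m, rfl⟩
      exact ⟨m, (key m).symm⟩
  · rw [Nat.card_congr (MonoidHom.ofInjective hi).toEquiv.symm]
    exact hc

end a

section comp

variable {F V A B : Type} [Field F] [CommGroup V] [Ring A] [Algebra F A] [Ring B] [Algebra F B]
  {α : V →* A} {W : Subgroup V} [Fintype (MulAut W)] (N : IsNW F α W B)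

/-- a lift of the component of `b` -/
def pr (ε : MulAut W) (b : B) : A := (N.spn b).choose ε

theorem pr_mem (ε : MulAut W) (b : B) : pr N ε b ∈ FxR (bw F α) (twW W ε) :=
  (N.spn b).choose_spec.1 ε

theorem pr_sum (b : B) : ∑ ε, N.β ε (pr N ε b) = b := by
  rw [← finsum_eq_sum_of_fintype]
  exact (N.spn b).choose_spec.2

theorem uniq (f : MulAut W → A) (hf : ∀ ε, f ε ∈ FxR (bw F α) (twW W ε)) (b : B)
    (h : ∑ ε, N.β ε (f ε) = b) (ε : MulAut W) : N.β ε (pr N ε b) = N.β ε (f ε) := by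
  have h1 := N.ind (fun ε => pr N ε b - f ε)
    (fun ε => Submodule.sub_mem _ (pr_mem N ε b) (hf ε)) (by
      rw [finsum_eq_sum_of_fintype]
      simp only [map_sub, Finset.sum_sub_distrib]
      rw [pr_sum, h, sub_self]) ε
  rw [map_sub] at h1
  exact sub_eq_zero.1 h1

/-- the projection to `D_ε` -/
def cp (ε : MulAut W) : B →ₗ[F] B where
  toFun := fun b => N.β ε (pr N ε b)
  map_add' := by
    intro b b'
    rw [← map_add]
    refine uniq N (fun ε => pr N ε b + pr N ε b')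
      (fun ε => Submodule.add_mem _ (pr_mem N ε b) (pr_mem N ε b')) _ ?_ ε
    simp only [map_add, Finset.sum_add_distrib]
    rw [pr_sum, pr_sum]
  map_smul' := by
    intro c b
    rw [RingHom.id_apply, ← map_smul]
    refine uniq N (fun ε => c • pr N ε b)
      (fun ε => Submodule.smul_mem _ _ (pr_mem N ε b)) _ ?_ ε
    simp only [map_smul, ← Finset.smul_sum]
    rw [pr_sum]

theorem cp_ap (ε : MulAut W) (b : B) : cp N ε b = N.β ε (pr N ε b) := rfl

theorem cp_sum (b : B) : ∑ ε, cp N ε b = b := pr_sum N b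

theorem cp_uniq (f : MulAut W → A) (hf : ∀ ε, f ε ∈ FxR (bw F α) (twW W ε)) (b : B)
    (h : ∑ ε, N.β ε (f ε) = b) (ε : MulAut W) : cp N ε b = N.β ε (f ε) := uniq N f hf b h ε

theorem cp_self {ε : MulAut W} {a : A} (ha : a ∈ FxR (bw F α) (twW W ε)) :
    cp N ε (N.β ε a) = N.β ε a := by
  classical
  have h := cp_uniq N (fun δ => if δ = ε then a else 0) (fun δ => by
    by_cases hd : δ = ε
    · simp only [hd, if_true]
      exact ha
    · simp only [hd, if_false]
      exact Submodule.zero_mem _) (N.β ε a) (by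
      rw [Finset.sum_eq_single ε]
      · simp
      · intro δ _ hd
        simp [hd]
      · simp) ε
  simpa using h

theorem cp_cp (ε : MulAut W) (b : B) : cp N ε (cp N ε b) = cp N ε b :=
  cp_self N (pr_mem N ε b)

theorem cp_mul (ε : MulAut W) (b b' : B) :
    cp N ε (b * b') = ∑ δ, cp N δ b * cp N (δ⁻¹ * ε) b' := by
  have h1 : ∀ δ η : MulAut W, N.β η (pr N δ b * pr N (δ⁻¹ * η) b') =
      cp N δ b * cp N (δ⁻¹ * η) b' := by
    intro δ η
    have := N.mul δ (δ⁻¹ * η) _ (pr_mem N δ b) _ (pr_mem N (δ⁻¹ * η) b')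
    rw [mul_inv_cancel_left] at this
    exact this
  have h2 := cp_uniq N (fun η => ∑ δ, pr N δ b * pr N (δ⁻¹ * η) b') (fun η => by
    refine Submodule.sum_mem _ fun δ _ => ?_
    have := Fx_mul α W δ (δ⁻¹ * η) (pr_mem N δ b) (pr_mem N (δ⁻¹ * η) b')
    rwa [mul_inv_cancel_left] at this) (b * b') (by
      simp only [map_sum, h1]
      rw [Finset.sum_comm]
      have h3 : ∀ δ : MulAut W, ∑ η, cp N δ b * cp N (δ⁻¹ * η) b' = cp N δ b * b' := by
        intro δ
        rw [← Finset.mul_sum]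
        congr 1
        exact (Function.Bijective.sum_comp (Group.mulLeft_bijective δ⁻¹)
          (fun η => cp N η b')).trans (cp_sum N b')
      simp only [h3]
      rw [← Finset.sum_mul, cp_sum]) ε
  rw [h2, map_sum]
  exact Finset.sum_congr rfl fun δ _ => h1 δ ε

theorem cp_nwh_mul (ε : MulAut W) (v : V) (b : B) :
    cp N ε (N.nwh v * b) = N.nwh v * cp N ε b := by
  have h1 : ∀ δ : MulAut W, N.β δ (α v * pr N δ b) = N.nwh v * cp N δ b := by
    intro δ
    have := N.mul 1 δ _ (al_mem_tw v W) _ (pr_mem N δ b)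
    rw [one_mul] at this
    exact this
  rw [← h1]
  refine cp_uniq N (fun δ => α v * pr N δ b) (fun δ => ?_) _ ?_ ε
  · have := Fx_mul α W 1 δ (al_mem_tw (R := F) v W) (pr_mem N δ b)
    rwa [one_mul] at this
  · simp only [h1]
    rw [← Finset.mul_sum, cp_sum]

theorem cp_mul_nwh (ε : MulAut W) (v : V) (b : B) :
    cp N ε (b * N.nwh v) = cp N ε b * N.nwh v := by
  have h1 : ∀ δ : MulAut W, N.β δ (pr N δ b * α v) = cp N δ b * N.nwh v := by
    intro δ
    have := N.mul δ 1 _ (pr_mem N δ b) _ (al_mem_tw v W)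
    rw [mul_one] at this
    exact this
  rw [← h1]
  refine cp_uniq N (fun δ => pr N δ b * α v) (fun δ => ?_) _ ?_ ε
  · have := Fx_mul α W δ 1 (pr_mem N δ b) (al_mem_tw (R := F) v W)
    rwa [mul_one] at this
  · simp only [h1]
    rw [← Finset.sum_mul, cp_sum]

/-- `β ε a` for a fixed `a` -/
theorem nwh_β {ε : MulAut W} {a : A} (ha : a ∈ FxR (bw F α) (twW W ε)) (v : V) :
    N.β ε (α v * a) = N.nwh v * N.β ε a := by
  have := N.mul 1 ε _ (al_mem_tw v W) _ ha
  rw [one_mul] at this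
  exact this

theorem β_nwh {ε : MulAut W} {a : A} (ha : a ∈ FxR (bw F α) (twW W ε)) (v : V) :
    N.β ε (a * α v) = N.β ε a * N.nwh v := by
  have := N.mul ε 1 _ ha _ (al_mem_tw v W)
  rw [mul_one] at this
  exact this

theorem cp_tw (ε : MulAut W) (b : B) (w : W) :
    cp N ε b * N.nwh w = N.nwh (ε w) * cp N ε b := by
  rw [cp_ap, ← β_nwh N (pr_mem N ε b), ← nwh_β N (pr_mem N ε b), (mem_tw α W ε).1 (pr_mem N ε b) w]

end comp

section main

variable {ℓ : ℕ} [Fact ℓ.Prime] {F V V1 A B : Type} [Field F] [CharP F ℓ] [CommGroup V]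
  [CommGroup V1] [Fintype V1] [Ring A] [Algebra F A] [Ring B] [Algebra F B] {α : V →* A}
  {i : V1 →* V} [Fintype (MulAut i.range)] (N : IsNW F α i.range B)

theorem Tr_ap (β : V →* B) (σ : MulAut V1) (b : B) :
    Tr F β i σ b = ∑ v, β (i v) * (b * β (i (σ v))⁻¹) := by
  rw [Tr, LinearMap.sum_apply]
  rfl

theorem β_mem_nt (hi : Function.Injective i) {σ : MulAut V1} {a : A} (ha : a ∈ Nt F α i σ) :
    N.β (ee hi σ⁻¹) a ∈ Nt F N.nwh i σ := by
  have ha' := (mem_tw_ee hi).2 ha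
  rw [mem_nt] at ha ⊢
  intro v
  rw [← nwh_β N ha', ← β_nwh N ha', ha v]

theorem cp_mem_nt (ε : MulAut i.range) {σ : MulAut V1} {b : B} (hb : b ∈ Nt F N.nwh i σ) :
    cp N ε b ∈ Nt F N.nwh i σ := by
  rw [mem_nt] at hb ⊢
  intro v
  rw [← cp_nwh_mul, ← cp_mul_nwh, hb v]

/-- the homomorphism `v ↦ v⁻¹ ε(σ v)` -/
def hh (hi : Function.Injective i) (σ : MulAut V1) (ε : MulAut i.range) : V1 →* V1 where
  toFun := fun v => v⁻¹ * (MonoidHom.ofInjective hi).symm (ε (MonoidHom.ofInjective hi (σ v)))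
  map_one' := by simp
  map_mul' := by
    intro u v
    simp only [map_mul, mul_inv]
    exact mul_mul_mul_comm _ _ _ _

theorem i_hh (hi : Function.Injective i) (σ : MulAut V1) (ε : MulAut i.range) (v : V1) :
    i (hh hi σ ε v) = (i v)⁻¹ * ((ε (MonoidHom.ofInjective hi (σ v)) : i.range) : V) := by
  change i (v⁻¹ * (MonoidHom.ofInjective hi).symm (ε (MonoidHom.ofInjective hi (σ v)))) = _
  rw [map_mul, map_inv]
  congr 1
  have := congrArg (Subtype.val) ((MonoidHom.ofInjective hi).apply_symm_apply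
    (ε (MonoidHom.ofInjective hi (σ v))))
  exact this

theorem hh_bij (hi : Function.Injective i) (hc : (Nat.card V1).Prime) {σ : MulAut V1}
    {ε : MulAut i.range} (hε : ε ≠ ee hi σ⁻¹) : Function.Bijective (hh hi σ ε) := by
  have hinj : Function.Injective (hh hi σ ε) := by
    rw [← MonoidHom.ker_eq_bot_iff]
    have : Fact (Nat.card V1).Prime := ⟨hc⟩
    rcases (hh hi σ ε).ker.eq_bot_or_eq_top_of_prime_card with h | h
    · exact h
    · refine absurd ?_ hε
      ext w
      obtain ⟨u, rfl⟩ := (MonoidHom.ofInjective hi).surjective w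
      rw [ee_coe]
      have h1 : σ⁻¹ u ∈ (hh hi σ ε).ker := by
        rw [h]
        exact Subgroup.mem_top _
      rw [MonoidHom.mem_ker] at h1
      have h2 := i_hh hi σ ε (σ⁻¹ u)
      rw [h1, map_one, MulAut.apply_inv_self] at h2
      exact (inv_mul_eq_one.1 h2.symm).symm
  exact ⟨hinj, Finite.surjective_of_injective hinj⟩

theorem off1 (hi : Function.Injective i) (hc : (Nat.card V1).Prime) {σ : MulAut V1}
    {ε : MulAut i.range} (hε : ε ≠ ee hi σ⁻¹) {b : B} (hb : b ∈ Nt F N.nwh i σ) (v : V1) :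
    N.nwh (i v) * cp N ε b = cp N ε b := by
  obtain ⟨u, rfl⟩ := (hh_bij hi hc hε).2 v
  rw [i_hh]
  have h1 := (mem_nt.1 (cp_mem_nt N ε hb)) u
  have h2 := cp_tw N ε b (MonoidHom.ofInjective hi (σ u))
  have h3 : ((MonoidHom.ofInjective hi (σ u) : i.range) : V) = i (σ u) := rfl
  rw [h3, ← h1] at h2
  rw [map_mul, mul_assoc, ← h2, ← mul_assoc, ← map_mul, inv_mul_cancel, map_one, one_mul]

theorem off3 (hi : Function.Injective i) (hc : (Nat.card V1).Prime) {σ : MulAut V1}
    {ε : MulAut i.range} (hε : ε ≠ ee hi σ⁻¹) (b : B) :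
    Tr F N.nwh i σ (cp N ε b) = ∑ v, N.nwh (i v) * cp N ε b := by
  rw [Tr_ap]
  have hb : Function.Bijective (fun v => (hh hi σ ε v)⁻¹) :=
    (Equiv.inv V1).bijective.comp (hh_bij hi hc hε)
  rw [← hb.sum_comp (fun v => N.nwh (i v) * cp N ε b)]
  refine Finset.sum_congr rfl fun v _ => ?_
  have h2 := cp_tw N ε b (MonoidHom.ofInjective hi (σ v))⁻¹
  have h3 : (((MonoidHom.ofInjective hi (σ v))⁻¹ : i.range) : V) = (i (σ v))⁻¹ := rfl
  rw [h3] at h2
  rw [h2, ← mul_assoc, ← map_mul]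
  congr 2
  rw [map_inv i, i_hh, mul_inv, inv_inv, map_inv]
  rfl

theorem it_trace (hi : Function.Injective i) {σ : MulAut V1} (b : B) (hl : Nat.card V1 = ℓ) :
    cp N (ee hi σ⁻¹) (Tr F N.nwh i σ b) = 0 := by
  rw [Tr_ap, map_sum]
  have h1 : ∀ v : V1, cp N (ee hi σ⁻¹) (N.nwh (i v) * (b * N.nwh (i (σ v))⁻¹)) =
      cp N (ee hi σ⁻¹) b := by
    intro v
    rw [cp_nwh_mul, cp_mul_nwh]
    have h2 := cp_tw N (ee hi σ⁻¹) b (MonoidHom.ofInjective hi (σ v))⁻¹
    have h3 : (((MonoidHom.ofInjective hi (σ v))⁻¹ : i.range) : V) = (i (σ v))⁻¹ := rfl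
    have h4 : ((ee hi σ⁻¹ (MonoidHom.ofInjective hi (σ v))⁻¹ : i.range) : V) = (i v)⁻¹ := by
      rw [← map_inv, ee_coe, map_inv, MulAut.inv_apply_self, map_inv]
    rw [h3, h4] at h2
    rw [h2, ← mul_assoc, ← map_mul, mul_inv_cancel, map_one, one_mul]
  rw [Finset.sum_congr rfl fun v _ => h1 v, Finset.sum_const, Finset.card_univ,
    ← Nat.card_eq_fintype_card, hl, ← Nat.cast_smul_eq_nsmul F, CharP.cast_eq_zero, zero_smul]

theorem it_le_nt (hi : Function.Injective i) (hc : (Nat.card V1).Prime) {σ : MulAut V1} :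
    It F α i σ ≤ Nt F α i σ := by
  unfold It
  rw [Submodule.span_le]
  rintro x (⟨m, rfl⟩ | ⟨v, a, ha, rfl⟩)
  · exact (mem_tw_ee hi).1 (BKR_le_FxR ((mem_bk_ee hi hc _).2 ⟨m, rfl⟩))
  · refine Submodule.sub_mem _ ?_ ha
    rw [mem_nt] at ha ⊢
    intro u
    rw [← mul_assoc, ← map_mul, mul_comm (i u), map_mul, mul_assoc, ha u, mul_assoc]

/-- (2) -/
theorem cp_it (hi : Function.Injective i) (hl : Nat.card V1 = ℓ) {σ : MulAut V1} {x : B}
    (hx : x ∈ It F N.nwh i σ) :
    ∃ y ∈ It F α i σ, cp N (ee hi σ⁻¹) x = N.β (ee hi σ⁻¹) y := by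
  unfold It at hx
  induction hx using Submodule.span_induction with
  | mem x h =>
    rcases h with ⟨b, rfl⟩ | ⟨v, b, hb, rfl⟩
    · exact ⟨0, Submodule.zero_mem _, by rw [it_trace N hi b hl, map_zero]⟩
    · have h1 : pr N (ee hi σ⁻¹) b ∈ Nt F α i σ := (mem_tw_ee hi).1 (pr_mem N _ b)
      refine ⟨α (i v) * pr N (ee hi σ⁻¹) b - pr N (ee hi σ⁻¹) b,
        Submodule.subset_span (Or.inr ⟨v, _, h1, rfl⟩), ?_⟩
      rw [map_sub, map_sub, cp_nwh_mul, nwh_β N (pr_mem N _ b)]
      rfl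
  | zero => exact ⟨0, Submodule.zero_mem _, by rw [map_zero, map_zero]⟩
  | add x y _ _ hx hy =>
    obtain ⟨m, hm, h1⟩ := hx
    obtain ⟨m', hm', h2⟩ := hy
    exact ⟨m + m', Submodule.add_mem _ hm hm', by rw [map_add, map_add, h1, h2]⟩
  | smul c x _ hx =>
    obtain ⟨m, hm, h1⟩ := hx
    exact ⟨c • m, Submodule.smul_mem _ _ hm, by rw [map_smul, map_smul, h1]⟩

theorem β_it (hi : Function.Injective i) (hc : (Nat.card V1).Prime) {σ : MulAut V1} {a : A}
    (ha : a ∈ It F α i σ) : N.β (ee hi σ⁻¹) a ∈ It F N.nwh i σ := by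
  unfold It at ha
  induction ha using Submodule.span_induction with
  | mem x h =>
    rcases h with ⟨m, rfl⟩ | ⟨v, a, ha, rfl⟩
    · have h1 := (mem_bk_ee (F := F) (α := α) (σ := σ) hi hc (Tr F α i σ m)).2 ⟨m, rfl⟩
      rw [(N.ker _ _ (BKR_le_FxR h1)).2 h1]
      exact Submodule.zero_mem _
    · rw [map_sub, nwh_β N ((mem_tw_ee hi).2 ha)]
      exact Submodule.subset_span (Or.inr ⟨v, _, β_mem_nt N hi ha, rfl⟩)
  | zero =>
    rw [map_zero]
    exact Submodule.zero_mem _
  | add x y _ _ hx hy =>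
    rw [map_add]
    exact Submodule.add_mem _ hx hy
  | smul c x _ hx =>
    rw [map_smul]
    exact Submodule.smul_mem _ _ hx

variable {C S : Type} [CommGroup C] [Fintype C] [Ring S] [Algebra F S] {θ : C →* MulAut V1}
  {q : C → (A →ₗ[F] S)}

theorem q_it (hi : Function.Injective i) (hc : (Nat.card V1).Prime) (hq : SG F α i θ q) (c : C)
    {x : A} (hx : x ∈ It F α i (θ c)) : q c x = 0 := by
  classical
  have h1 := (hq.ker (fun d => if d = c then x else 0) (fun d => by
    by_cases hd : d = c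
    · subst hd
      simp only [if_true]
      exact it_le_nt hi hc hx
    · simp only [hd, if_false]
      exact Submodule.zero_mem _)).2 (fun d => by
    by_cases hd : d = c
    · subst hd
      simp only [if_true]
      exact hx
    · simp only [hd, if_false]
      exact Submodule.zero_mem _)
  rw [Finset.sum_eq_single c] at h1
  · simpa using h1
  · intro d _ hd
    simp [hd]
  · simp

theorem q_eq (hi : Function.Injective i) (hc : (Nat.card V1).Prime) (hq : SG F α i θ q) (c : C)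
    {a a' : A} (ha : a ∈ FxR (bw F α) (twW i.range (ee hi (θ c)⁻¹)))
    (ha' : a' ∈ FxR (bw F α) (twW i.range (ee hi (θ c)⁻¹)))
    (h : N.β (ee hi (θ c)⁻¹) a = N.β (ee hi (θ c)⁻¹) a') : q c a = q c a' := by
  have h1 : N.β (ee hi (θ c)⁻¹) (a - a') = 0 := by rw [map_sub, h, sub_self]
  obtain ⟨m, hm⟩ := (mem_bk_ee hi hc _).1 ((N.ker _ _ (Submodule.sub_mem _ ha ha')).1 h1)
  have h2 : a - a' ∈ It F α i (θ c) := Submodule.subset_span (Or.inl ⟨m, hm⟩)
  have h3 := q_it hi hc hq c h2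
  rw [map_sub] at h3
  exact sub_eq_zero.1 h3

/-- the maps of the model of `S(B)` -/
def q' (hi : Function.Injective i) (hc : (Nat.card V1).Prime) (hq : SG F α i θ q) (c : C) :
    B →ₗ[F] S where
  toFun := fun b => q c (pr N (ee hi (θ c)⁻¹) b)
  map_add' := by
    intro b b'
    rw [← map_add]
    refine q_eq N hi hc hq c (pr_mem N _ _)
      (Submodule.add_mem _ (pr_mem N _ _) (pr_mem N _ _)) ?_
    rw [map_add]
    exact map_add (cp N (ee hi (θ c)⁻¹)) b b'
  map_smul' := by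
    intro r b
    rw [RingHom.id_apply, ← map_smul]
    refine q_eq N hi hc hq c (pr_mem N _ _) (Submodule.smul_mem _ _ (pr_mem N _ _)) ?_
    rw [map_smul]
    exact map_smul (cp N (ee hi (θ c)⁻¹)) r b

theorem q'_ap (hi : Function.Injective i) (hc : (Nat.card V1).Prime) (hq : SG F α i θ q) (c : C)
    (b : B) : q' N hi hc hq c b = q c (pr N (ee hi (θ c)⁻¹) b) := rfl

theorem q'_β (hi : Function.Injective i) (hc : (Nat.card V1).Prime) (hq : SG F α i θ q) (c : C)
    {a : A} (ha : a ∈ Nt F α i (θ c)) : q' N hi hc hq c (N.β (ee hi (θ c)⁻¹) a) = q c a := by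
  have ha' := (mem_tw_ee (F := F) hi).2 ha
  exact q_eq N hi hc hq c (pr_mem N _ _) ha' (cp_self N ha')

theorem q'_cp (hi : Function.Injective i) (hc : (Nat.card V1).Prime) (hq : SG F α i θ q) (c : C)
    (b : B) : q' N hi hc hq c (cp N (ee hi (θ c)⁻¹) b) = q' N hi hc hq c b :=
  q'_β N hi hc hq c ((mem_tw_ee (F := F) hi).1 (pr_mem N _ b))

theorem q'_tr (hi : Function.Injective i) (hc : (Nat.card V1).Prime) (hl : Nat.card V1 = ℓ)
    (hq : SG F α i θ q) (c : C) (z : B) (hz : cp N (ee hi (θ c)⁻¹) z = z) :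
    q' N hi hc hq c (∑ v, N.nwh (i v) * z) = 0 := by
  have hm := (mem_tw_ee (F := F) hi).1 (pr_mem N (ee hi (θ c)⁻¹) z)
  have h1 : ∀ v : V1, q' N hi hc hq c (N.nwh (i v) * z) = q' N hi hc hq c z := by
    intro v
    have h2 : N.nwh (i v) * z = N.β (ee hi (θ c)⁻¹) (α (i v) * pr N (ee hi (θ c)⁻¹) z) := by
      rw [nwh_β N (pr_mem N _ _)]
      congr 1
      exact hz.symm
    have h3 : α (i v) * pr N (ee hi (θ c)⁻¹) z ∈ Nt F α i (θ c) := by
      have h4 := Submodule.add_mem _ (it_le_nt hi hc (Submodule.subset_span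
        (Or.inr ⟨v, _, hm, rfl⟩) : α (i v) * pr N (ee hi (θ c)⁻¹) z - pr N (ee hi (θ c)⁻¹) z ∈
          It F α i (θ c))) hm
      rwa [sub_add_cancel] at h4
    rw [h2, q'_β N hi hc hq c h3, q'_ap]
    have h5 := q_it hi hc hq c (Submodule.subset_span
        (Or.inr ⟨v, _, hm, rfl⟩) : α (i v) * pr N (ee hi (θ c)⁻¹) z - pr N (ee hi (θ c)⁻¹) z ∈
          It F α i (θ c))
    rw [map_sub] at h5
    exact sub_eq_zero.1 h5
  rw [map_sum, Finset.sum_congr rfl fun v _ => h1 v, Finset.sum_const, Finset.card_univ,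
    ← Nat.card_eq_fintype_card, hl, ← Nat.cast_smul_eq_nsmul F, CharP.cast_eq_zero, zero_smul]

theorem snw_aux (hi : Function.Injective i) (hc : (Nat.card V1).Prime) (hl : Nat.card V1 = ℓ)
    (hq : SG F α i θ q)
    (hsnl : ∀ b : B, (∀ v, N.nwh (i v) * b = b) → ∃ b' : B, b = ∑ v, N.nwh (i v) * b') :
    SG F N.nwh i θ (q' N hi hc hq) where
  sur := by
    intro s
    obtain ⟨a, ha, hs⟩ := hq.sur s
    refine ⟨fun c => N.β (ee hi (θ c)⁻¹) (a c), fun c => β_mem_nt N hi (ha c), ?_⟩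
    rw [← hs]
    exact Finset.sum_congr rfl fun c _ => q'_β N hi hc hq c (ha c)
  ker := by
    intro b hb
    have hm : ∀ c, pr N (ee hi (θ c)⁻¹) (b c) ∈ Nt F α i (θ c) :=
      fun c => (mem_tw_ee (F := F) hi).1 (pr_mem N _ _)
    have h1 := hq.ker (fun c => pr N (ee hi (θ c)⁻¹) (b c)) hm
    refine Iff.trans h1 (forall_congr' fun c => ⟨fun h => ?_, fun h => ?_⟩)
    · classical
      have h2 : b c = cp N (ee hi (θ c)⁻¹) (b c) +
          ∑ ε ∈ Finset.univ.erase (ee hi (θ c)⁻¹), cp N ε (b c) := by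
        rw [Finset.add_sum_erase Finset.univ (fun ε => cp N ε (b c)) (Finset.mem_univ _), cp_sum]
      rw [h2]
      refine Submodule.add_mem _ (β_it N hi hc h) (Submodule.sum_mem _ fun ε hε => ?_)
      have hne : ε ≠ ee hi (θ c)⁻¹ := Finset.ne_of_mem_erase hε
      obtain ⟨b', hb'⟩ := hsnl (cp N ε (b c)) (off1 N hi hc hne (hb c))
      have h3 : cp N ε (b c) = ∑ v, N.nwh (i v) * cp N ε b' := by
        rw [← cp_cp, hb', map_sum]
        exact Finset.sum_congr rfl fun v _ => cp_nwh_mul N ε _ _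
      rw [h3, ← off3 N hi hc hne]
      exact Submodule.subset_span (Or.inl ⟨_, rfl⟩)
    · obtain ⟨y, hy, h2⟩ := cp_it N hi hl h
      have h3 : N.β (ee hi (θ c)⁻¹) (pr N (ee hi (θ c)⁻¹) (b c) - y) = 0 := by
        rw [map_sub, ← h2]
        exact sub_self _
      have h4 : y ∈ FxR (bw F α) (twW i.range (ee hi (θ c)⁻¹)) :=
        (mem_tw_ee (F := F) hi).2 (it_le_nt hi hc hy)
      obtain ⟨m, h5⟩ := (mem_bk_ee hi hc _).1
        ((N.ker _ _ (Submodule.sub_mem _ (pr_mem N _ _) h4)).1 h3)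
      have h6 : pr N (ee hi (θ c)⁻¹) (b c) - y ∈ It F α i (θ c) :=
        Submodule.subset_span (Or.inl ⟨m, h5⟩)
      have h7 := Submodule.add_mem _ h6 hy
      rwa [sub_add_cancel] at h7
  mul := by
    classical
    intro c d b hb b' hb'
    have he : ee hi (θ (c * d))⁻¹ = ee hi (θ c)⁻¹ * ee hi (θ d)⁻¹ := by
      rw [mul_comm c d, map_mul, mul_inv_rev, map_mul]
    rw [← q'_cp, cp_mul, map_sum, Finset.sum_eq_single (ee hi (θ c)⁻¹)]
    · have h1 : (ee hi (θ c)⁻¹)⁻¹ * ee hi (θ (c * d))⁻¹ = ee hi (θ d)⁻¹ := by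
        rw [he, inv_mul_cancel_left]
      have hm := (mem_tw_ee (F := F) hi).1 (pr_mem N (ee hi (θ c)⁻¹) b)
      have hm' := (mem_tw_ee (F := F) hi).1 (pr_mem N (ee hi (θ d)⁻¹) b')
      rw [h1, cp_ap, cp_ap, ← N.mul _ _ _ (pr_mem N _ _) _ (pr_mem N _ _), ← he, q'_β]
      · rw [hq.mul c d _ hm _ hm']
        rfl
      · rw [← mem_tw_ee hi, he]
        exact Fx_mul α _ _ _ (pr_mem N _ _) (pr_mem N _ _)
    · intro ε _ hne
      obtain ⟨b'', hb''⟩ := hsnl (cp N ε b) (off1 N hi hc hne hb)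
      have h3 : cp N ε b = ∑ v, N.nwh (i v) * cp N ε b'' := by
        rw [← cp_cp, hb'', map_sum]
        exact Finset.sum_congr rfl fun v _ => cp_nwh_mul N ε _ _
      rw [h3, Finset.sum_mul]
      simp only [mul_assoc]
      refine q'_tr N hi hc hl hq (c * d) _ ?_
      rw [cp_ap N ε b'', cp_ap N _ b', ← N.mul _ _ _ (pr_mem N _ _) _ (pr_mem N _ _),
        mul_inv_cancel_left]
      refine cp_self N ?_
      have := Fx_mul α _ _ _ (pr_mem N ε b'') (pr_mem N (ε⁻¹ * ee hi (θ (c * d))⁻¹) b')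
      rwa [mul_inv_cancel_left] at this
    · intro h
      exact absurd (Finset.mem_univ _) h
  one := by
    have h0 : ee hi (θ 1)⁻¹ = 1 := by
      rw [map_one θ, inv_one, map_one (ee hi)]
    have h1 : (1 : B) = N.β (ee hi (θ 1)⁻¹) 1 := by
      rw [h0, N.one]
    have h2 : (1 : A) ∈ Nt F α i (θ 1) := by
      rw [mem_nt]
      intro v
      rw [map_one θ, mul_one, one_mul]
      rfl
    calc q' N hi hc hq 1 1 = q' N hi hc hq 1 (N.β (ee hi (θ 1)⁻¹) 1) := by rw [← h1]
      _ = q 1 1 := q'_β N hi hc hq 1 h2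
      _ = 1 := hq.one

end main

theorem snw (hS : SnlStmt) : SnwStmt := by
  intro ℓ hp F V V1 C A S B K _ _ _ _ _ _ _ _ _ _ _ _ _ _ _ α i θ q N lam x y hl hi hrf hq
  classical
  have : Finite i.range := inferInstance
  have : Finite (MulAut i.range) := inferInstance
  have : Fintype (MulAut i.range) := Fintype.ofFinite _
  have hc : (Nat.card V1).Prime := by
    rw [hl]
    exact hp.out
  exact ⟨q' N hi hc hq, snw_aux N hi hc hl hq fun b hb =>
    hS F V V1 B K N.nwh i lam x y hi hrf b hb⟩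

end Pool.Agent.PSS.BR.H49
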