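import Pool.Agent.PSS.StmtsS1d

/-!
Squad PSS, row FOR (helper49): the relative trace to first order, over `R`.
-/

open scoped BigOperators TensorProduct

noncomputable section

namespace Pool.Agent.PSS.H49

open Pool.Agent.PSS
open Pool.Agent.PFD.D2 (Cdv FibG)
open Pool.Agent.PFD.D2b (FrR)
open Finset
open Pool.Agent.PSS.Dm (cst)

/-- every element of the ring of a deformation is a combination of constants over a frame -/
theorem of_frame {K W B Ω : Type} [Field K] [Group W] [Ring B] [Algebra K B] [Fintype Ω]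
    {om : W →* B} (D : Dm K om) (b : Ω → B) (c : Ω → (B →ₗ[K] K))
    (h : ∀ a, ∑ ω, c ω a • b ω = a) (f : ℕ → B) :
    D.of f = ∑ ω, (PowerSeries.mk fun n => c ω (f n)) • D.of (cst (b ω)) := by
  have h1 : ∀ ω, (PowerSeries.mk fun n => c ω (f n)) • D.of (cst (b ω)) =
      D.of (Dm.smulq (PowerSeries.mk fun n => c ω (f n)) (cst (b ω))) := fun ω =>
    (D.of_smul _ _).symm
  simp_rw [h1]
  have h2 : ∀ s : Finset Ω, ∑ ω ∈ s, D.of (Dm.smulq (PowerSeries.mk fun n => c ω (f n))
      (cst (b ω))) = D.of (∑ ω ∈ s, Dm.smulq (PowerSeries.mk fun n => c ω (f n))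
      (cst (b ω))) := by
    classical
    intro s
    induction s using Finset.induction_on with
    | empty => rw [Finset.sum_empty, Finset.sum_empty, D.of_zero]
    | insert a s ha ih => rw [Finset.sum_insert ha, Finset.sum_insert ha, D.of_add, ih]
  rw [h2]
  congr 1
  funext n
  rw [Finset.sum_apply]
  have h3 : ∀ ω, Dm.smulq (PowerSeries.mk fun n => c ω (f n)) (cst (b ω)) n = c ω (f n) • b ω := by
    intro ω
    rw [Dm.smulq, Finset.sum_eq_single (n, 0)]
    · rw [PowerSeries.coeff_mk, cst, if_pos rfl]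
    · rintro ⟨p, q⟩ hp hne
      rw [Finset.HasAntidiagonal.mem_antidiagonal] at hp
      rcases q with _ | q
      · simp only [add_zero] at hp
        exact absurd (by rw [hp]) hne
      · rw [cst, if_neg (Nat.succ_ne_zero q), smul_zero]
    · intro hn
      exact absurd (by rw [Finset.HasAntidiagonal.mem_antidiagonal]; simp) hn
  simp_rw [h3]
  exact (h (f n)).symm

theorem cst_map {A B : Type} [Ring A] [Ring B] (i : A → B) (h0 : i 0 = 0) (a : A) :
    (fun n => i (cst a n)) = cst (i a) := by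
  funext n
  rw [cst, cst]
  split_ifs
  · rfl
  · exact h0

theorem for_ (ht : TraStmt) (hl : LkxStmt) (hc : CrrStmt) (hr : RfeStmt) : ForStmt := by
  intro R K V E A B κ Ω _ _ _ _ _ _ _ _ _ _ _ _ _ _ _ φ W z α lam x y b c C u hz hE hu _ _ _ κ' _
    P m v₁ D Λ x' y' hT hv hm hRF hΛ
  obtain ⟨⟨D', hD'⟩, -, -⟩ := ht K V B (ia C.i α) W P m hT
  obtain ⟨ψ, Λ', hψ, hψw, hΛ', hRF'⟩ := hl R K V A B κ κ' Ω W α lam x y b c C D D' Λ x' y'
    (fun n a₁ a₂ => by rw [hD']; exact hm n a₁ a₂) hRF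
  have hψc : ∀ a, ψ (D.of (cst a)) = D'.of (cst (C.i a)) := fun a => by
    rw [hψ, cst_map C.i (map_zero C.i)]
  have : FiniteDimensional K B := by
    classical
    refine ⟨⟨Finset.univ.image (fun ω => C.i (b ω)), eq_top_iff.2 fun a _ => ?_⟩⟩
    rw [← C.frK.2.2 a]
    refine Submodule.sum_mem _ fun ω _ => Submodule.smul_mem _ _ (Submodule.subset_span ?_)
    rw [Finset.coe_image]
    exact ⟨ω, Finset.mem_coe.2 (Finset.mem_univ ω), rfl⟩
  have hconst : ∀ f, PowerSeries.constantCoeff (Λ' (D'.of f)) = C.lamK (f 0) := by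
    intro f
    rw [of_frame D' (fun ω => C.i (b ω)) C.cK C.frK.2.2 f, map_sum, map_sum]
    have h1 : ∀ ω, PowerSeries.constantCoeff (Λ' ((PowerSeries.mk fun n => C.cK ω (f n)) •
        D'.of (cst (C.i (b ω))))) = C.cK ω (f 0) * C.lamK (C.i (b ω)) := by
      intro ω
      rw [map_smul, smul_eq_mul, map_mul, ← hψc, hΛ',
        ← PowerSeries.coeff_zero_eq_constantCoeff_apply,
        ← PowerSeries.coeff_zero_eq_constantCoeff_apply, PowerSeries.coeff_mk,
        PowerSeries.coeff_map, PowerSeries.coeff_zero_eq_constantCoeff_apply, hΛ, C.lk]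
      rw [cst, if_pos rfl]
    simp_rw [h1]
    conv_rhs => rw [← C.frK.2.2 (f 0)]
    rw [map_sum]
    refine Finset.sum_congr rfl fun ω _ => ?_
    rw [map_smul, smul_eq_mul]
  obtain ⟨ν, hν0, hνc, hνl, hνw⟩ := hc K V E B κ κ' φ W z (ia C.i α) C.lamK
    (fun t => C.i (x t)) (fun t => C.i (y t)) P m D' Λ' (fun t => ψ (x' t)) (fun t => ψ (y' t))
    hz hT hD' C.rfK hRF' hconst
  have ad1 : antidiagonal 1 = {(0, 1), (1, 0)} := rfl
  have ad0 : antidiagonal 0 = {(0, 0)} := rfl
  have tow : ∀ (r : R) (a : B), algebraMap R K r • a = r • a := C.tow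
  have P0 : ∀ a, P 0 a = a := fun a => by rw [hT.p0]; rfl
  -- the linear form
  have hρ : ∀ a, C.lamK (((orderOf z : K) • ν 1) * C.i a) = algebraMap R K
      ((orderOf z : R) * PowerSeries.coeff 1 (Λ (D.of (cst a))) - lam (v₁ a)) := by
    intro a
    have h1 := hνl 1 (C.i a)
    rw [ad1, Finset.sum_pair (by decide), ← hψc, hΛ', PowerSeries.coeff_map] at h1
    simp only [] at h1
    rw [hν0, one_mul, P0] at h1
    rw [(algebraMap R K).map_sub, (algebraMap R K).map_mul, map_natCast, ← h1, ← C.lk, hv,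
      map_smul, smul_eq_mul, smul_mul_assoc, map_smul, smul_eq_mul]
    ring
  have lamR : ∀ (r : R) (s : B), C.lamK (r • s) = algebraMap R K r * C.lamK s := fun r s => by
    rw [← tow, map_smul, smul_eq_mul]
  let σ : A →ₗ[R] R :=
    { toFun := fun a => (orderOf z : R) * PowerSeries.coeff 1 (Λ (D.of (cst a))) - lam (v₁ a)
      map_add' := fun a a' => C.rinj (by
        rw [(algebraMap R K).map_add, ← hρ, ← hρ, ← hρ, map_add C.i, mul_add, map_add C.lamK])
      map_smul' := fun r a => C.rinj (by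
        rw [RingHom.id_apply, smul_eq_mul, (algebraMap R K).map_mul, ← hρ, ← hρ, map_smul C.i,
          mul_smul_comm, lamR]) }
  have hσ : ∀ a, σ a = (orderOf z : R) * PowerSeries.coeff 1 (Λ (D.of (cst a))) - lam (v₁ a) :=
    fun a => rfl
  obtain ⟨d, hd⟩ := (hr R V A κ α lam x y C.rf.sym C.rf.e1).2.2 σ
  have hid : C.i d = (orderOf z : K) • ν 1 := by
    refine sub_eq_zero.1 ((hr K V B κ (ia C.i α) C.lamK (fun t => C.i (x t))
      (fun t => C.i (y t)) C.rfK.sym C.rfK.e1).2.1 _ fun s => ?_)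
    rw [← C.frK.2.2 s, Finset.mul_sum, map_sum]
    refine Finset.sum_eq_zero fun ω _ => ?_
    rw [mul_smul_comm, map_smul, sub_mul, map_sub, hρ, ← hσ, hd, ← map_mul, C.lk, sub_self,
      smul_zero]
  refine ⟨d, fun a => ⟨PowerSeries.coeff 1 (Λ (D.of (cst a))), ?_⟩, fun w => ?_⟩
  · rw [← hd, hσ, sub_add_cancel]
  -- the relative trace
  have hrt : ∀ n, D'.sq (rt (fun t => ψ (x' t)) (fun t => ψ (y' t)) (D'.w w)) n =
      C.i (D.sq (rt x' y' (D.w w)) n) := by
    intro n
    have h1 : rt (fun t => ψ (x' t)) (fun t => ψ (y' t)) (D'.w w) = ψ (rt x' y' (D.w w)) := by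
      rw [rt, rt, map_sum]
      refine Finset.sum_congr rfl fun t _ => ?_
      rw [map_mul, map_mul, hψw]
    rw [h1]
    conv_lhs => rw [← D.of_sq (rt x' y' (D.w w)), hψ, D'.sq_of]
  have hrtK : rt (fun t => C.i (x t)) (fun t => C.i (y t)) (ia C.i α w) =
      C.i (rt x y (α w)) := by
    rw [rt, rt, map_sum]
    refine Finset.sum_congr rfl fun t _ => ?_
    rw [map_mul, map_mul, ia_apply]
  have h0 : C.i (D.sq (rt x' y' (D.w w)) 0) = (orderOf z : K) • C.i (rt x y (α w)) := by
    have h1 := hνw w 0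
    rw [if_pos rfl, hrtK, ad0, Finset.sum_singleton] at h1
    simp only [] at h1
    rw [ad0, Finset.sum_singleton] at h1
    simp only [] at h1
    rw [hν0, one_mul, P0, hrt] at h1
    exact h1
  have hn : ∀ a : A, (orderOf z : K) • C.i a = C.i ((orderOf z : R) • a) := by
    intro a
    rw [map_smul, ← tow, map_natCast]
  refine ⟨C.inj (by rw [h0, hn]), C.inj ?_⟩
  have h1 := hνw w 1
  rw [if_neg one_ne_zero, ad1, Finset.sum_pair (by decide)] at h1
  simp only [] at h1
  rw [ad1, Finset.sum_pair (by decide), ad0, Finset.sum_singleton] at h1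
  simp only [] at h1
  rw [hν0, one_mul, one_mul, P0, P0, hrt, hrt, h0, map_smul, ← hv, mul_smul_comm,
    ← smul_mul_assoc, ← hid] at h1
  rw [map_neg, map_add, map_mul]
  rw [eq_neg_iff_add_eq_zero, ← h1]
  abel

end Pool.Agent.PSS.H49
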