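import Pool.Agent.PSS.StmtsS1b

/-!
# Squad PSS, rows HCB and LFG (helper49)
-/

set_option autoImplicit false

open scoped BigOperators TensorProduct

namespace Pool.Agent.PSS.H49

open Pool.Agent.PSS
open Pool.Agent.PFD.D2b (FrR)
open Finset

/-! ## LFG -/

section lfg

variable {R K V A B κ Ω : Type} [CommRing R] [Field K] [Algebra R K] [CommGroup V]
  [Fintype V] [Ring A] [Algebra R A] [Ring B] [Algebra R B] [Algebra K B] [Fintype κ]
  [Fintype Ω] [MulAction (V × V) Ω] {α : V →* A} {lam : A →ₗ[R] R} {x y : κ → A} {b : Ω → A}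
  {c : Ω → (A →ₗ[R] R)}

theorem bw_apply' {S V' A' : Type} [CommRing S] [CommGroup V'] [Ring A'] [Algebra S A']
    (α' : V' →* A') (g : V' × V') (a : A') :
    bw S α' g a = α' g.1 * (a * α' g.2⁻¹) := rfl

theorem in_iff (C : KC R K B α lam x y b c) (s : B) : In C.i s ↔ s ∈ C.i.range :=
  (AlgHom.mem_range C.i).symm

/-- a map which is `W`-`W`-linear modulo `i A` commutes with the action modulo `i A` -/
theorem act_mod (C : KC R K B α lam x y b c) {W : Subgroup V} {g : A →ₗ[R] B}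
    (hg : ∀ w ∈ W, ∀ a, In C.i (g (α w * a) - C.i (α w) * g a) ∧
        In C.i (g (a * α w) - g a * C.i (α w))) {q : V × V} (hq : q ∈ W.prod W) (a : A) :
    bw K (ia C.i α) q (g a) - g (bw R α q a) ∈ C.i.range := by
  rw [bw_apply', bw_apply']
  have h1 := (in_iff C _).1 (hg q.1 hq.1 (a * α q.2⁻¹)).1
  have h2 := (in_iff C _).1 (hg q.2⁻¹ (inv_mem hq.2) a).2
  have h3 : C.i (α q.1) ∈ C.i.range := ⟨_, rfl⟩
  have h4 := C.i.range.mul_mem h3 h2
  have h5 := C.i.range.neg_mem (C.i.range.add_mem h1 h4)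
  have h6 : ia C.i α q.1 * (g a * ia C.i α q.2⁻¹) - g (α q.1 * (a * α q.2⁻¹)) =
      -(g (α q.1 * (a * α q.2⁻¹)) - C.i (α q.1) * g (a * α q.2⁻¹) +
        C.i (α q.1) * (g (a * α q.2⁻¹) - g a * C.i (α q.2⁻¹))) := by
    rw [ia_apply, ia_apply]
    noncomm_ring
  rw [h6]
  exact h5

theorem act_range (C : KC R K B α lam x y b c) (q : V × V) {s : B} (hs : s ∈ C.i.range) :
    bw K (ia C.i α) q s ∈ C.i.range := by
  rw [bw_apply']
  exact C.i.range.mul_mem ⟨_, rfl⟩ (C.i.range.mul_mem hs ⟨_, rfl⟩)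

theorem bw_mul' {S V' A' : Type} [CommRing S] [CommGroup V'] [Ring A'] [Algebra S A']
    (α' : V' →* A') (g h : V' × V') (a : A') :
    bw S α' (g * h) a = bw S α' g (bw S α' h a) := by
  rw [map_mul]
  rfl

/-- the equivariant family `h ω` congruent to `g (b ω)` -/
theorem fam (hfx : FxlStmt) [CharZero K] (C : KC R K B α lam x y b c) {W : Subgroup V}
    {g : A →ₗ[R] B}
    (hg : ∀ w ∈ W, ∀ a, In C.i (g (α w * a) - C.i (α w) * g a) ∧
        In C.i (g (a * α w) - g a * C.i (α w))) :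
    ∃ h : Ω → B, (∀ q ∈ W.prod W, ∀ ω, h (q • ω) = bw K (ia C.i α) q (h ω)) ∧
      ∀ ω, h ω - g (b ω) ∈ C.i.range := by
  classical
  let P : Subgroup (V × V) := W.prod W
  have h0 : ∀ ω : Ω, ∃ t : B, (∀ q ∈ P, q • ω = ω → bw K (ia C.i α) q t = t) ∧
      t - g (b ω) ∈ C.i.range := by
    intro ω
    let X : Subgroup (V × V) := P ⊓ MulAction.stabilizer (V × V) ω
    obtain ⟨t, ht1, ht2⟩ := hfx R K V A B κ Ω α lam x y b c C X (g (b ω)) (by
      intro q hq
      have hq2 : q • ω = ω := hq.2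
      have h1 := act_mod C hg (q := q) hq.1 (b ω)
      rw [← C.fr.1 q ω, hq2] at h1
      exact (in_iff C _).2 h1)
    exact ⟨t, fun q hq hqω => ht1 q ⟨hq, hqω⟩, (in_iff C _).1 ht2⟩
  choose t ht1 ht2 using h0
  let r : Ω → Ω := fun ω => (Quotient.out (Quotient.mk (MulAction.orbitRel P Ω) ω))
  have hr : ∀ ω, ∃ p ∈ P, p • r ω = ω := by
    intro ω
    have h1 : (MulAction.orbitRel P Ω).r (r ω) ω := Quotient.exact (Quotient.out_eq _)
    have h2 : (MulAction.orbitRel P Ω).r ω (r ω) := (MulAction.orbitRel P Ω).symm h1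
    obtain ⟨p, hp⟩ := h2
    exact ⟨p.1, p.2, hp⟩
  choose p hp1 hp2 using hr
  have hrq : ∀ q ∈ P, ∀ ω, r (q • ω) = r ω := by
    intro q hq ω
    have h1 : Quotient.mk (MulAction.orbitRel P Ω) (q • ω) =
        Quotient.mk (MulAction.orbitRel P Ω) ω := Quotient.sound ⟨⟨q, hq⟩, rfl⟩
    show Quotient.out (Quotient.mk (MulAction.orbitRel P Ω) (q • ω)) = _
    rw [h1]
  refine ⟨fun ω => bw K (ia C.i α) (p ω) (t (r ω)), ?_, ?_⟩
  · intro q hq ω
    show bw K (ia C.i α) (p (q • ω)) (t (r (q • ω))) = bw K (ia C.i α) q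
      (bw K (ia C.i α) (p ω) (t (r ω)))
    rw [hrq q hq ω, ← bw_mul']
    have h1 : ((q * p ω)⁻¹ * p (q • ω)) • r ω = r ω := by
      rw [mul_smul]
      have h2 : p (q • ω) • r ω = (q * p ω) • r ω := by
        rw [mul_smul, hp2 ω]
        have h3 := hp2 (q • ω)
        rwa [hrq q hq ω] at h3
      rw [h2, inv_smul_smul]
    have h4 := ht1 (r ω) ((q * p ω)⁻¹ * p (q • ω))
      (mul_mem (inv_mem (mul_mem hq (hp1 ω))) (hp1 _)) h1
    have h5 : p (q • ω) = (q * p ω) * ((q * p ω)⁻¹ * p (q • ω)) := by group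
    conv_lhs => rw [h5, bw_mul', h4]
  · intro ω
    have h1 := act_range C (p ω) (ht2 (r ω))
    have h2 := act_mod C hg (q := p ω) (hp1 ω) (b (r ω))
    have h3 := C.i.range.add_mem h1 h2
    rw [← C.fr.1 (p ω) (r ω), hp2 ω, map_sub, sub_add_sub_cancel] at h3
    exact h3

end lfg

/-- LFG. -/
theorem lfg (hfx : FxlStmt) : LfgStmt := by
  intro R K V A B κ Ω _ _ _ _ _ _ _ _ _ _ _ _ _ _ W α lam x y b c C g hg hg1
  obtain ⟨h, hh1, hh2⟩ := fam hfx C hg
  let H₁ : B →ₗ[K] B := ∑ ω, (C.cK ω).smulRight (h ω)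
  have hH : ∀ s, H₁ s = ∑ ω, C.cK ω s • h ω := by
    intro s
    simp only [H₁, LinearMap.sum_apply, LinearMap.smulRight_apply]
  have heq : ∀ q ∈ W.prod W, ∀ s, H₁ (bw K (ia C.i α) q s) = bw K (ia C.i α) q (H₁ s) := by
    intro q hq s
    rw [hH, hH, map_sum, ← Equiv.sum_comp (MulAction.toPerm q)]
    refine Finset.sum_congr rfl fun ω _ => ?_
    rw [MulAction.toPerm_apply, C.frK.2.1, hh1 q hq ω, map_smul]
  have hl : ∀ w ∈ W, ∀ s, H₁ (ia C.i α w * s) = ia C.i α w * H₁ s := by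
    intro w hw s
    have h1 := heq (w, 1) ⟨hw, one_mem _⟩ s
    rw [bw_apply', bw_apply'] at h1
    simpa using h1
  have hrr : ∀ w ∈ W, ∀ s, H₁ (s * ia C.i α w) = H₁ s * ia C.i α w := by
    intro w hw s
    have h1 := heq (1, w⁻¹) ⟨W.one_mem, W.inv_mem hw⟩ s
    rw [bw_apply', bw_apply'] at h1
    simpa using h1
  have hcg : ∀ a, H₁ (C.i a) - g a ∈ C.i.range := by
    intro a
    have h1 : g a = ∑ ω, c ω a • g (b ω) := by
      conv_lhs => rw [← C.fr.2.2 a]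
      rw [map_sum]
      exact Finset.sum_congr rfl fun ω _ => map_smul _ _ _
    have h2 : H₁ (C.i a) = ∑ ω, c ω a • h ω := by
      rw [hH]
      exact Finset.sum_congr rfl fun ω _ => by rw [C.ck, C.tow]
    rw [h1, h2, ← Finset.sum_sub_distrib]
    refine Subalgebra.sum_mem _ fun ω _ => ?_
    rw [← smul_sub]
    exact Subalgebra.smul_mem _ (hh2 ω) _
  obtain ⟨e, he⟩ : ∃ e, e = H₁ 1 := ⟨_, rfl⟩
  have heM : e ∈ C.i.range := by
    have h1 := hcg 1
    rw [map_one] at h1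
    have h2 := C.i.range.add_mem h1 ((in_iff C _).1 hg1)
    rw [sub_add_cancel] at h2
    rw [he]
    exact h2
  have hec : ∀ w ∈ W, ia C.i α w * e = e * ia C.i α w := by
    intro w hw
    rw [he, ← hl w hw, ← hrr w hw, mul_one, one_mul]
  refine ⟨H₁ - LinearMap.mulRight K e, ?_, ?_, ?_⟩
  · intro w hw s
    constructor
    · show H₁ (ia C.i α w * s) - (ia C.i α w * s) * e = ia C.i α w * (H₁ s - s * e)
      rw [hl w hw, mul_sub, mul_assoc]
    · show H₁ (s * ia C.i α w) - (s * ia C.i α w) * e = (H₁ s - s * e) * ia C.i α w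
      rw [hrr w hw, sub_mul, mul_assoc, hec w hw, mul_assoc]
  · show H₁ 1 - 1 * e = 0
    rw [one_mul, he, sub_self]
  · intro a
    rw [in_iff]
    show H₁ (C.i a) - C.i a * e - g a ∈ _
    have h1 := C.i.range.sub_mem (hcg a) (C.i.range.mul_mem (show C.i a ∈ C.i.range from
      ⟨a, rfl⟩) heM)
    have h2 : H₁ (C.i a) - C.i a * e - g a = H₁ (C.i a) - g a - C.i a * e := by abel
    rw [h2]
    exact h1

/-! ## HCB -/

section core

variable {K V B : Type} [Field K] [CommGroup V] [Ring B] [Algebra K B]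
  (β : V →* B) (M : Subring B) (z : V) (cc : B →ₗ[K] B →ₗ[K] B)

/-- `f_j = c (z^j, z) z^-(j+1)` -/
def ff (j : ℕ) : B := cc (β (z ^ j)) (β z) * β (z ^ (j + 1))⁻¹

/-- `h_j = c (z, z^j) z^-(j+1)` -/
def hj (j : ℕ) : B := cc (β z) (β (z ^ j)) * β (z ^ (j + 1))⁻¹

theorem bb (u v : V) : β u * β v = β (u * v) := (map_mul β u v).symm

theorem ff_per (j : ℕ) : ff β z cc (j + orderOf z) = ff β z cc j := by
  unfold ff
  have h1 : z ^ (j + orderOf z) = z ^ j := by rw [pow_add, pow_orderOf_eq_one, mul_one]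
  have h2 : z ^ (j + orderOf z + 1) = z ^ (j + 1) := by
    rw [pow_succ, h1, ← pow_succ]
  rw [h1, h2]

variable {β M z cc}

theorem z_comm {v : V} {j : ℕ} : β v * β (z ^ j) = β (z ^ j) * β v := by
  rw [bb, bb, mul_comm]

theorem v_comm (u v : V) : β u * β v = β v * β u := by
  rw [bb, bb, mul_comm]

/-- `f_j` commutes with `W` -/
theorem ff_comm {W : Subgroup V} (hW : WB2 β W fun a b => cc a b) {w : V} (hw : w ∈ W) (j : ℕ) :
    β w * ff β z cc j = ff β z cc j * β w := by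
  unfold ff
  have h1 : β w * cc (β (z ^ j)) (β z) = cc (β (z ^ j)) (β z) * β w := by
    rw [← (hW w hw _ _).1, v_comm w, (hW w hw _ _).2.1, v_comm w, (hW w hw _ _).2.2]
  rw [← mul_assoc, h1, mul_assoc, v_comm w, mul_assoc]

/-- the cocycle identity for `(z, z^j, z)` -/
theorem ff_step (hM : ∀ v, β v ∈ M)
    (hc : ∀ x ∈ M, ∀ y ∈ M, ∀ t ∈ M, dl (fun a b => cc a b) x y t ∈ M) (j : ℕ) :
    β z * (ff β z cc j * β z⁻¹) - ff β z cc (j + 1) + hj β z cc (j + 1) - hj β z cc j ∈ M := by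
  have h1 := hc (β z) (hM _) (β (z ^ j)) (hM _) (β z) (hM _)
  have h2 := M.mul_mem h1 (hM (z ^ (j + 2))⁻¹)
  have e1 : β z * β (z ^ j) = β (z ^ (j + 1)) := by rw [bb, pow_succ']
  have e2 : β (z ^ j) * β z = β (z ^ (j + 1)) := by rw [bb, pow_succ]
  have e3 : β (z ^ (j + 1))⁻¹ * β z⁻¹ = β (z ^ (j + 2))⁻¹ := by
    rw [bb]
    congr 1
    rw [← mul_inv, ← pow_succ]
  have e4 : β z * β (z ^ (j + 2))⁻¹ = β (z ^ (j + 1))⁻¹ := by
    rw [bb]
    congr 1
    rw [pow_succ z (j + 1), mul_inv, mul_comm (z ^ (j + 1))⁻¹, mul_inv_cancel_left]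
  have e5 : β z * (ff β z cc j * β z⁻¹) - ff β z cc (j + 1) + hj β z cc (j + 1) - hj β z cc j =
      dl (fun a b => cc a b) (β z) (β (z ^ j)) (β z) * β (z ^ (j + 2))⁻¹ := by
    unfold ff hj dl
    simp only [e1, e2]
    rw [mul_assoc (cc (β (z ^ j)) (β z)), e3, sub_mul, add_mul, sub_mul,
      mul_assoc (cc (β z) (β (z ^ j))), e4]
    simp only [mul_assoc]
  rw [e5]
  exact h2

theorem sum_per {F : ℕ → B} {n : ℕ} (hF : ∀ j, F (j + n) = F j) :
    ∑ j ∈ range n, F (j + 1) = ∑ j ∈ range n, F j := by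
  have h1 := Finset.sum_range_succ F n
  have h2 := Finset.sum_range_succ' F n
  have h3 := hF 0
  rw [zero_add] at h3
  rw [h1, h3] at h2
  exact (add_right_cancel h2).symm

theorem sum_per' {F : ℕ → B} {n : ℕ} (hF : ∀ j, F (j + n) = F j) (k : ℕ) :
    ∑ j ∈ range n, F (j + k) = ∑ j ∈ range n, F j := by
  induction k with
  | zero => rfl
  | succ k ih =>
    rw [← ih]
    have h1 := sum_per (F := fun j => F (j + k)) (n := n) (fun j => by
      show F (j + n + k) = F (j + k)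
      rw [add_right_comm, hF])
    rw [← h1]
    exact Finset.sum_congr rfl fun j _ => by
      show F (j + (k + 1)) = F (j + 1 + k)
      rw [add_assoc, add_comm 1 k]

/-- shifted sums of a function which is periodic modulo `M` -/
theorem sum_mod {F : ℕ → B} {n : ℕ} (hF : ∀ j, F (j + n) - F j ∈ M) (k : ℕ) :
    ∑ j ∈ range n, F (j + k) - ∑ j ∈ range n, F j ∈ M := by
  induction k with
  | zero =>
    simp only [add_zero, sub_self]
    exact M.zero_mem
  | succ k ih =>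
    have h1 := Finset.sum_range_succ (fun j => F (j + k)) n
    have h2 := Finset.sum_range_succ' (fun j => F (j + k)) n
    have h3 : ∑ j ∈ range n, F (j + (k + 1)) = ∑ j ∈ range n, F (j + 1 + k) :=
      Finset.sum_congr rfl fun j _ => by rw [add_assoc, add_comm 1 k]
    have h4 : ∑ j ∈ range n, F (j + (k + 1)) - ∑ j ∈ range n, F j =
        (F (k + n) - F k) + (∑ j ∈ range n, F (j + k) - ∑ j ∈ range n, F j) := by
      rw [h3]
      rw [h1] at h2
      simp only [zero_add] at h2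
      rw [add_comm k n]
      have h5 : ∑ j ∈ range n, F (j + 1 + k) =
        ∑ j ∈ range n, F (j + k) + F (n + k) - F k := by
        rw [h2]
        abel
      rw [h5]
      abel
    rw [h4]
    exact M.add_mem (hF k) ih

/-- `gamma = sum f_j` is fixed by `z` modulo `M` -/
theorem gam_z (hM : ∀ v, β v ∈ M)
    (hc : ∀ x ∈ M, ∀ y ∈ M, ∀ t ∈ M, dl (fun a b => cc a b) x y t ∈ M) :
    β z * ((∑ j ∈ range (orderOf z), ff β z cc j) * β z⁻¹) -
      ∑ j ∈ range (orderOf z), ff β z cc j ∈ M := by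
  have h1 := M.sum_mem fun j (_ : j ∈ range (orderOf z)) => ff_step (cc := cc) (z := z) hM hc j
  rw [Finset.sum_sub_distrib, Finset.sum_add_distrib, Finset.sum_sub_distrib,
    sum_per (ff_per β z cc)] at h1
  have h2 : ∑ j ∈ range (orderOf z), hj β z cc (j + 1) =
      ∑ j ∈ range (orderOf z), hj β z cc j := by
    apply sum_per
    intro j
    unfold hj
    have h1 : z ^ (j + orderOf z) = z ^ j := by rw [pow_add, pow_orderOf_eq_one, mul_one]
    have h2 : z ^ (j + orderOf z + 1) = z ^ (j + 1) := by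
      rw [pow_succ, h1, ← pow_succ]
    rw [h1, h2]
  rw [h2, add_sub_cancel_right, ← Finset.mul_sum, ← Finset.sum_mul] at h1
  exact h1

theorem gam_v {W : Subgroup V} (hM : ∀ v, β v ∈ M)
    (hc : ∀ x ∈ M, ∀ y ∈ M, ∀ t ∈ M, dl (fun a b => cc a b) x y t ∈ M)
    (hW : WB2 β W fun a b => cc a b) (gen : ∀ v : V, ∃ j : ℕ, ∃ w ∈ W, v = z ^ j * w) (v : V) :
    β v * ((∑ j ∈ range (orderOf z), ff β z cc j) * β v⁻¹) -
      ∑ j ∈ range (orderOf z), ff β z cc j ∈ M := by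
  obtain ⟨γ, hγ⟩ : ∃ γ, γ = ∑ j ∈ range (orderOf z), ff β z cc j := ⟨_, rfl⟩
  have hz : β z * (γ * β z⁻¹) - γ ∈ M := by
    rw [hγ]
    exact gam_z hM hc
  rw [← hγ]
  have hw : ∀ w ∈ W, β w * γ = γ * β w := by
    intro w hw
    rw [hγ, Finset.mul_sum, Finset.sum_mul]
    exact Finset.sum_congr rfl fun j _ => ff_comm hW hw j
  have hj : ∀ j : ℕ, β (z ^ j) * (γ * β (z ^ j)⁻¹) - γ ∈ M := by
    intro j
    induction j with
    | zero =>
      rw [pow_zero, inv_one, map_one, mul_one, one_mul, sub_self]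
      exact M.zero_mem
    | succ j ih =>
      have h1 := M.mul_mem (hM z) (M.mul_mem ih (hM z⁻¹))
      have h2 := M.add_mem h1 hz
      have h3 : β (z ^ (j + 1)) * (γ * β (z ^ (j + 1))⁻¹) - γ =
          β z * ((β (z ^ j) * (γ * β (z ^ j)⁻¹) - γ) * β z⁻¹) + (β z * (γ * β z⁻¹) - γ) := by
        rw [pow_succ' z j, mul_inv, map_mul, mul_comm z⁻¹, map_mul]
        noncomm_ring
      rw [h3]
      exact h2
  obtain ⟨j, w, hwW, rfl⟩ := gen v
  have h1 := hj j
  have h2 : β (z ^ j * w) * (γ * β (z ^ j * w)⁻¹) - γ =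
      β (z ^ j) * (γ * β (z ^ j)⁻¹) - γ := by
    rw [mul_inv, mul_comm (z ^ j)⁻¹, map_mul, map_mul, mul_assoc (β (z ^ j)),
      ← mul_assoc (β w), hw w hwW, mul_assoc γ, ← mul_assoc (β w), bb, mul_inv_cancel, map_one,
      one_mul]
  rw [h2]
  exact h1

variable (β z cc) in
/-- `γ_j` -/
def gj (e : B) (j : ℕ) : B := (j • e + ∑ l ∈ range j, ff β z cc l) * β (z ^ j)

theorem gj_succ (e : B) (j : ℕ) :
    gj β z cc e (j + 1) = gj β z cc e j * β z + e * β (z ^ (j + 1)) + cc (β (z ^ j)) (β z) := by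
  unfold gj
  rw [Finset.sum_range_succ]
  have h1 : ff β z cc j * β (z ^ (j + 1)) = cc (β (z ^ j)) (β z) := by
    unfold ff
    rw [mul_assoc, bb, inv_mul_cancel, map_one, mul_one]
  have h2 : β (z ^ j) * β z = β (z ^ (j + 1)) := by rw [bb, pow_succ]
  rw [mul_assoc, h2, succ_nsmul, ← add_assoc, add_mul _ (ff β z cc j), h1]
  noncomm_ring

theorem gj_zero (e : B) : gj β z cc e 0 = 0 := by
  unfold gj
  rw [zero_smul, Finset.sum_range_zero, add_zero, zero_mul]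

theorem gj_comm {W : Subgroup V} (hW : WB2 β W fun a b => cc a b) {w : V} (hw : w ∈ W) {e : B}
    (he : β w * e = e * β w) (j : ℕ) : β w * gj β z cc e j = gj β z cc e j * β w := by
  unfold gj
  have h1 : β w * (j • e + ∑ l ∈ range j, ff β z cc l) =
      (j • e + ∑ l ∈ range j, ff β z cc l) * β w := by
    rw [mul_add, add_mul, mul_smul_comm, smul_mul_assoc, he, Finset.mul_sum, Finset.sum_mul]
    congr 1
    exact Finset.sum_congr rfl fun j _ => ff_comm hW hw j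
  rw [← mul_assoc, h1, mul_assoc, v_comm w, mul_assoc]

theorem gj_per {e γ' : B} (hM : ∀ v, β v ∈ M) (he : (orderOf z) • e = -γ')
    (hγ : γ' - ∑ j ∈ range (orderOf z), ff β z cc j ∈ M) (j : ℕ) :
    gj β z cc e (j + orderOf z) - gj β z cc e j ∈ M := by
  unfold gj
  have h1 : z ^ (j + orderOf z) = z ^ j := by rw [pow_add, pow_orderOf_eq_one, mul_one]
  have h2 : ∑ l ∈ range (j + orderOf z), ff β z cc l =
      ∑ l ∈ range j, ff β z cc l + ∑ l ∈ range (orderOf z), ff β z cc l := by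
    rw [Finset.sum_range_add]
    congr 1
    have h3 := sum_per' (ff_per β z cc) j
    rw [← h3]
    exact Finset.sum_congr rfl fun l _ => by rw [add_comm]
  rw [h1, h2, add_smul, he]
  have h4 := M.mul_mem (M.neg_mem hγ) (hM (z ^ j))
  have h5 : (j • e + -γ' + (∑ l ∈ range j, ff β z cc l + ∑ l ∈ range (orderOf z), ff β z cc l)) *
      β (z ^ j) - (j • e + ∑ l ∈ range j, ff β z cc l) * β (z ^ j) =
      -(γ' - ∑ j ∈ range (orderOf z), ff β z cc j) * β (z ^ j) := by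
    rw [← sub_mul]
    congr 1
    abel
  rw [h5]
  exact h4

/-- (1) -/
theorem gj_add (hM : ∀ v, β v ∈ M) (hN : Nrm fun a b => cc a b)
    (hc : ∀ x ∈ M, ∀ y ∈ M, ∀ t ∈ M, dl (fun a b => cc a b) x y t ∈ M) {e : B}
    (he : ∀ v, β v * e = e * β v) (k j : ℕ) :
    gj β z cc e (j + k) - (β (z ^ k) * gj β z cc e j + gj β z cc e k * β (z ^ j) +
      cc (β (z ^ k)) (β (z ^ j))) ∈ M := by
  induction j with
  | zero =>
    have h1 : cc (β (z ^ k)) 1 = 0 := hN.2 _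
    rw [zero_add, gj_zero, pow_zero, map_one, mul_zero, zero_add, mul_one, h1, add_zero, sub_self]
    exact M.zero_mem
  | succ j ih =>
    have h1 := M.mul_mem ih (hM z)
    have h2 := hc _ (hM (z ^ k)) _ (hM (z ^ j)) _ (hM z)
    have h3 := M.sub_mem h1 h2
    have e1 : β (z ^ k) * β (z ^ j) = β (z ^ (j + k)) := by rw [bb, ← pow_add, add_comm]
    have e2 : β (z ^ j) * β z = β (z ^ (j + 1)) := by rw [bb, pow_succ]
    have e3 : j + 1 + k = (j + k) + 1 := by omega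
    have e4 : β (z ^ k) * (e * β (z ^ (j + 1))) = e * β (z ^ (j + k + 1)) := by
      rw [← mul_assoc, he, mul_assoc, bb, ← pow_add]
      congr 3
      omega
    have h4 : gj β z cc e (j + 1 + k) - (β (z ^ k) * gj β z cc e (j + 1) +
        gj β z cc e k * β (z ^ (j + 1)) + cc (β (z ^ k)) (β (z ^ (j + 1)))) =
        (gj β z cc e (j + k) - (β (z ^ k) * gj β z cc e j + gj β z cc e k * β (z ^ j) +
          cc (β (z ^ k)) (β (z ^ j)))) * β z -
          dl (fun a b => cc a b) (β (z ^ k)) (β (z ^ j)) (β z) := by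
      unfold dl
      simp only [e1, e2]
      rw [e3, gj_succ e (j + k), gj_succ e j, mul_add, mul_add, e4, ← e2]
      noncomm_ring
    rw [h4]
    exact h3

/-- HCB in the language of a subring -/
theorem hcb_core [CharZero K] [Finite V] {W : Subgroup V} (hM : ∀ v, β v ∈ M)
    (gen : ∀ v : V, ∃ j : ℕ, ∃ w ∈ W, v = z ^ j * w) (τ : B →ₗ[K] B) (τM : ∀ x ∈ M, τ x ∈ M)
    (τW : WBl β W τ)
    (τs : ∀ x, ∑ j ∈ range (orderOf z), β (z ^ j) * τ (β (z ^ j)⁻¹ * x) = x)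
    (hW : WB2 β W fun a b => cc a b) (hN : Nrm fun a b => cc a b)
    (hc : ∀ x ∈ M, ∀ y ∈ M, ∀ t ∈ M, dl (fun a b => cc a b) x y t ∈ M)
    (fix : ∀ s : B, (∀ v, β v * (s * β v⁻¹) - s ∈ M) →
      ∃ t, (∀ v, β v * t = t * β v) ∧ t - s ∈ M) :
    ∃ g : B →ₗ[K] B, WBl β W g ∧ g 1 = 0 ∧ ∀ v, ∀ x ∈ M, cc (β v) x + d1 g (β v) x ∈ M := by
  obtain ⟨γ', hγ1, hγ2⟩ := fix (∑ j ∈ range (orderOf z), ff β z cc j)
    (gam_v hM hc hW gen)
  have hn : (orderOf z : K) ≠ 0 := Nat.cast_ne_zero.2 (orderOf_pos z).ne'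
  obtain ⟨e, he⟩ : ∃ e : B, e = -((orderOf z : K)⁻¹ • γ') := ⟨_, rfl⟩
  have hne : (orderOf z) • e = -γ' := by
    rw [he, ← Nat.cast_smul_eq_nsmul K, smul_neg, smul_smul, mul_inv_cancel₀ hn, one_smul]
  have hec : ∀ v, β v * e = e * β v := by
    intro v
    rw [he, mul_neg, neg_mul, mul_smul_comm, smul_mul_assoc, hγ1]
  obtain ⟨G, hG⟩ : ∃ G : ℕ → B, G = gj β z cc e := ⟨_, rfl⟩
  have G0 : ∀ w ∈ W, ∀ j, β w * G j = G j * β w := fun w hw j => by
    rw [hG]
    exact gj_comm hW hw (hec w) j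
  have Gper : ∀ j, G (j + orderOf z) - G j ∈ M := fun j => by
    rw [hG]
    exact gj_per hM hne hγ2 j
  have Gadd : ∀ k j, G (j + k) - (β (z ^ k) * G j + G k * β (z ^ j) +
      cc (β (z ^ k)) (β (z ^ j))) ∈ M := fun k j => by
    rw [hG]
    exact gj_add hM hN hc hec k j
  let g₁ : B →ₗ[K] B := ∑ j ∈ range (orderOf z),
    ((LinearMap.mulLeft K (G j)).comp (τ.comp (LinearMap.mulLeft K (β (z ^ j)⁻¹))) +
      (cc (β (z ^ j))).comp (τ.comp (LinearMap.mulLeft K (β (z ^ j)⁻¹))))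
  have hg : ∀ x, g₁ x = ∑ j ∈ range (orderOf z), (G j * τ (β (z ^ j)⁻¹ * x) +
      cc (β (z ^ j)) (τ (β (z ^ j)⁻¹ * x))) := by
    intro x
    simp only [g₁, LinearMap.sum_apply, LinearMap.add_apply, LinearMap.comp_apply,
      LinearMap.mulLeft_apply]
  -- linearity over W
  have hgW : WBl β W g₁ := by
    intro w hw x
    constructor
    · rw [hg, hg, Finset.mul_sum]
      refine Finset.sum_congr rfl fun j _ => ?_
      have h1 : τ (β (z ^ j)⁻¹ * (β w * x)) = β w * τ (β (z ^ j)⁻¹ * x) := by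
        rw [← mul_assoc, v_comm, mul_assoc, (τW w hw _).1]
      rw [h1, ← mul_assoc (G j), ← G0 w hw j]
      have h2 : cc (β (z ^ j)) (β w * τ (β (z ^ j)⁻¹ * x)) =
          β w * cc (β (z ^ j)) (τ (β (z ^ j)⁻¹ * x)) := by
        have a1 : cc (β (z ^ j) * β w) (τ (β (z ^ j)⁻¹ * x)) =
            cc (β (z ^ j)) (β w * τ (β (z ^ j)⁻¹ * x)) := (hW w hw _ _).2.1
        have a2 : cc (β w * β (z ^ j)) (τ (β (z ^ j)⁻¹ * x)) =
            β w * cc (β (z ^ j)) (τ (β (z ^ j)⁻¹ * x)) := (hW w hw _ _).1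
        rw [← a1, v_comm, a2]
      rw [h2, mul_add, mul_assoc]
    · rw [hg, hg, Finset.sum_mul]
      refine Finset.sum_congr rfl fun j _ => ?_
      have h1 : τ (β (z ^ j)⁻¹ * (x * β w)) = τ (β (z ^ j)⁻¹ * x) * β w := by
        rw [← mul_assoc, (τW w hw _).2]
      rw [h1]
      have h2 : cc (β (z ^ j)) (τ (β (z ^ j)⁻¹ * x) * β w) =
          cc (β (z ^ j)) (τ (β (z ^ j)⁻¹ * x)) * β w := (hW w hw _ _).2.2
      rw [h2, add_mul, mul_assoc]
  -- (2)
  have hkey : ∀ (k : ℕ), ∀ x ∈ M, g₁ (β (z ^ k) * x) -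
      (β (z ^ k) * g₁ x + G k * x + cc (β (z ^ k)) x) ∈ M := by
    intro k x hx
    obtain ⟨t, ht⟩ : ∃ t : ℕ → B, t = fun j => τ (β (z ^ j)⁻¹ * x) := ⟨_, rfl⟩
    have htM : ∀ j, t j ∈ M := fun j => by
      rw [ht]
      exact τM _ (M.mul_mem (hM _) hx)
    have hts : ∑ j ∈ range (orderOf z), β (z ^ j) * t j = x := by
      rw [ht]
      exact τs x
    obtain ⟨F, hF⟩ : ∃ F : ℕ → B, F = fun j => G j * τ (β (z ^ j)⁻¹ * (β (z ^ k) * x)) +
      cc (β (z ^ j)) (τ (β (z ^ j)⁻¹ * (β (z ^ k) * x))) := ⟨_, rfl⟩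
    have hFper : ∀ j, F (j + orderOf z) - F j ∈ M := by
      intro j
      rw [hF]
      show (G (j + orderOf z) * τ (β (z ^ (j + orderOf z))⁻¹ * (β (z ^ k) * x)) +
        cc (β (z ^ (j + orderOf z))) (τ (β (z ^ (j + orderOf z))⁻¹ * (β (z ^ k) * x)))) -
        (G j * τ (β (z ^ j)⁻¹ * (β (z ^ k) * x)) +
          cc (β (z ^ j)) (τ (β (z ^ j)⁻¹ * (β (z ^ k) * x)))) ∈ M
      have h1 : z ^ (j + orderOf z) = z ^ j := by rw [pow_add, pow_orderOf_eq_one, mul_one]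
      rw [h1, add_sub_add_right_eq_sub, ← sub_mul]
      exact M.mul_mem (Gper j) (τM _ (M.mul_mem (hM _) (M.mul_mem (hM _) hx)))
    have h1 := sum_mod hFper k
    have hFk : ∀ j, F (j + k) = G (j + k) * t j + cc (β (z ^ (j + k))) (t j) := by
      intro j
      have h2 : β (z ^ (j + k))⁻¹ * (β (z ^ k) * x) = β (z ^ j)⁻¹ * x := by
        rw [← mul_assoc, bb, pow_add, mul_inv, inv_mul_cancel_right]
      rw [hF, ht]
      show G (j + k) * τ (β (z ^ (j + k))⁻¹ * (β (z ^ k) * x)) +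
        cc (β (z ^ (j + k))) (τ (β (z ^ (j + k))⁻¹ * (β (z ^ k) * x))) = _
      rw [h2]
    have hstep : ∀ j, F (j + k) - (β (z ^ k) * (G j * t j + cc (β (z ^ j)) (t j)) +
        G k * (β (z ^ j) * t j) + cc (β (z ^ k)) (β (z ^ j) * t j)) ∈ M := by
      intro j
      have h2 := M.mul_mem (Gadd k j) (htM j)
      have h3 := hc _ (hM (z ^ k)) _ (hM (z ^ j)) _ (htM j)
      have h4 := M.sub_mem h2 h3
      have e1 : β (z ^ k) * β (z ^ j) = β (z ^ (j + k)) := by rw [bb, ← pow_add, add_comm]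
      have h5 : F (j + k) - (β (z ^ k) * (G j * t j + cc (β (z ^ j)) (t j)) +
          G k * (β (z ^ j) * t j) + cc (β (z ^ k)) (β (z ^ j) * t j)) =
          (G (j + k) - (β (z ^ k) * G j + G k * β (z ^ j) + cc (β (z ^ k)) (β (z ^ j)))) * t j -
            dl (fun a b => cc a b) (β (z ^ k)) (β (z ^ j)) (t j) := by
        unfold dl
        rw [hFk]
        simp only [e1]
        noncomm_ring
      rw [h5]
      exact h4
    have h6 := M.sum_mem fun j (_ : j ∈ range (orderOf z)) => hstep j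
    have e2 : ∑ j ∈ range (orderOf z), (β (z ^ k) * (G j * t j + cc (β (z ^ j)) (t j)) +
        G k * (β (z ^ j) * t j) + cc (β (z ^ k)) (β (z ^ j) * t j)) =
        β (z ^ k) * g₁ x + G k * x + cc (β (z ^ k)) x := by
      rw [Finset.sum_add_distrib, Finset.sum_add_distrib, ← Finset.mul_sum, ← Finset.mul_sum,
        ← map_sum, hts, hg, ht]
    have e3 : g₁ (β (z ^ k) * x) = ∑ j ∈ range (orderOf z), F j := by
      rw [hg, hF]
    rw [Finset.sum_sub_distrib, e2] at h6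
    have h7 := M.sub_mem h6 h1
    rw [e3]
    have e4 : ∑ j ∈ range (orderOf z), F (j + k) - (β (z ^ k) * g₁ x + G k * x +
        cc (β (z ^ k)) x) - (∑ j ∈ range (orderOf z), F (j + k) -
        ∑ j ∈ range (orderOf z), F j) = ∑ j ∈ range (orderOf z), F j -
        (β (z ^ k) * g₁ x + G k * x + cc (β (z ^ k)) x) := by abel
    rw [e4] at h7
    exact h7
  -- normalisation
  obtain ⟨e', he'⟩ : ∃ e', e' = g₁ 1 := ⟨_, rfl⟩
  have hec' : ∀ w ∈ W, β w * e' = e' * β w := by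
    intro w hw
    rw [he', ← (hgW w hw 1).1, ← (hgW w hw 1).2, mul_one, one_mul]
  obtain ⟨g, hgd⟩ : ∃ g : B →ₗ[K] B, g = g₁ - LinearMap.mulLeft K e' := ⟨_, rfl⟩
  have hgx : ∀ x, g x = g₁ x - e' * x := by
    intro x
    rw [hgd]
    rfl
  have hWg : WBl β W g := by
    intro w hw x
    constructor
    · rw [hgx, hgx, (hgW w hw x).1, ← mul_assoc e', ← hec' w hw, mul_sub, mul_assoc]
    · rw [hgx, hgx, (hgW w hw x).2, sub_mul, mul_assoc]
  refine ⟨g, hWg, by rw [hgx, ← he', mul_one, sub_self], ?_⟩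
  have hzk : ∀ (k : ℕ), ∀ x ∈ M, cc (β (z ^ k)) x + d1 g (β (z ^ k)) x ∈ M := by
    intro k x hx
    have h1 := hkey k x hx
    have h2 := hkey k 1 M.one_mem
    have h3 : cc (β (z ^ k)) 1 = 0 := hN.2 _
    rw [mul_one, mul_one, ← he', h3, add_zero] at h2
    have h4 := M.sub_mem (M.mul_mem h2 hx) h1
    have h5 : cc (β (z ^ k)) x + d1 g (β (z ^ k)) x =
        (g₁ (β (z ^ k)) - (β (z ^ k) * e' + G k)) * x - (g₁ (β (z ^ k) * x) -
          (β (z ^ k) * g₁ x + G k * x + cc (β (z ^ k)) x)) := by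
      unfold d1
      rw [hgx, hgx, hgx]
      noncomm_ring
    rw [h5]
    exact h4
  intro v x hx
  obtain ⟨k, w, hw, rfl⟩ := gen v
  have h1 := hzk k (β w * x) (M.mul_mem (hM w) hx)
  have h2 : cc (β (z ^ k * w)) x = cc (β (z ^ k)) (β w * x) := by
    rw [map_mul]
    exact (hW w hw _ _).2.1
  have h3 : d1 g (β (z ^ k * w)) x = d1 g (β (z ^ k)) (β w * x) := by
    unfold d1
    have h4 : g (β (z ^ k) * β w) = g (β (z ^ k)) * β w := (hWg w hw _).2
    have h5 : g (β w * x) = β w * g x := (hWg w hw _).1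
    rw [map_mul, h4, h5]
    simp only [mul_assoc]
  rw [h2, h3]
  exact h1

end core

/-- HCB. -/
theorem hcb (ht : TauStmt) (hf : FxlStmt) : HcbStmt := by
  intro R K V E A B κ Ω _ _ _ _ _ _ _ _ _ _ _ _ _ _ _ φ W z α lam x y b c C hz hst cc hW hN hc
  obtain ⟨τ, h1, h2, h3⟩ := ht R K V E A B κ Ω φ W z α lam x y b c C hz hst
  have hmem : ∀ s, s ∈ C.i.range.toSubring ↔ In C.i s := fun s => by
    rw [in_iff]
    rfl
  obtain ⟨g, g1, g2, g3⟩ := hcb_core (β := ia C.i α) (M := C.i.range.toSubring) (z := z)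
    (cc := cc) (W := W) (fun v => ⟨α v, rfl⟩) hz.gen τ
    (by
      rintro _ ⟨a, rfl⟩
      exact (hmem _).2 (h1 a)) h2 h3 hW hN
    (by
      rintro _ ⟨a₁, rfl⟩ _ ⟨a₂, rfl⟩ _ ⟨a₃, rfl⟩
      exact (hmem _).2 (hc a₁ a₂ a₃))
    (by
      intro s hs
      let X : Subgroup (V × V) := (MonoidHom.prod (MonoidHom.id V) (MonoidHom.id V)).range
      obtain ⟨t, ht1, ht2⟩ := hf R K V A B κ Ω α lam x y b c C X s (by
        rintro _ ⟨v, rfl⟩
        exact (hmem _).1 (hs v))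
      refine ⟨t, ?_, (hmem _).2 ht2⟩
      intro v
      have h4 : ia C.i α v * (t * ia C.i α v⁻¹) = t := ht1 (v, v) ⟨v, rfl⟩
      conv_rhs => rw [← h4]
      rw [mul_assoc, mul_assoc, bb, inv_mul_cancel, map_one, mul_one])
  exact ⟨g, g1, g2, fun v a => (hmem _).1 (g3 v _ ⟨a, rfl⟩)⟩

end Pool.Agent.PSS.H49
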